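import Pool.Agent.Work.MP_3574a2_pr.Gen.Stmts

/-!
# From moment hypotheses on a random variable to its law
-/

set_option autoImplicit false

namespace Pool.Agent.Work.MP_3574a2_pr.Gen

open MeasureTheory ProbabilityTheory Set Filter Topology

universe u

lemma rpow_le_one_add {y p q : ℝ} (hy : 0 ≤ y) (hp : 0 < p) (hpq : p ≤ q) :
    y ^ p ≤ 1 + y ^ q := by
  rcases le_or_gt y 1 with h | h
  · have h1 : y ^ p ≤ 1 := Real.rpow_le_one hy h hp.le
    have h2 : 0 ≤ y ^ q := Real.rpow_nonneg hy q
    linarith
  · have h1 : y ^ p ≤ y ^ q := Real.rpow_le_rpow_of_exponent_le h.le hpq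
    linarith

/-- The law of a variable with mean zero, variance one and a finite moment. -/
lemma law_of_moments {Ω : Type u} [MeasurableSpace Ω] (P : Measure Ω) [IsProbabilityMeasure P]
    (Z : Ω → ℝ) (hZ : Measurable Z) (h0 : ∫ ω, Z ω ∂P = 0) (h1 : ∫ ω, Z ω ^ 2 ∂P = 1)
    (q : ℝ) (hq : 2 < q) (hint : Integrable (fun ω => |Z ω| ^ q) P) :
    Law (P.map Z) (min q 3) := by
  have hpos : 0 < min q 3 := lt_min (by linarith) (by norm_num)
  have hmono : ∀ p : ℝ, 0 < p → p ≤ q → Integrable (fun ω => |Z ω| ^ p) P := by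
    intro p hp hpq
    have hdom : Integrable (fun ω => 1 + |Z ω| ^ q) P := (integrable_const 1).add hint
    refine hdom.mono' ?_ (Eventually.of_forall fun ω => ?_)
    · exact (hZ.abs.pow_const p).aestronglyMeasurable
    · rw [Real.norm_eq_abs, abs_of_nonneg (Real.rpow_nonneg (abs_nonneg _) _)]
      exact rpow_le_one_add (abs_nonneg _) hp hpq
  refine ⟨Measure.isProbabilityMeasure_map hZ.aemeasurable, ?_, ?_, ?_, ?_⟩
  · rw [integrable_map_measure (by fun_prop) hZ.aemeasurable]
    have := hmono 2 (by norm_num) hq.le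
    refine this.congr (Eventually.of_forall fun ω => ?_)
    simp [Function.comp]
  · rw [integrable_map_measure (by
      have : Measurable fun t : ℝ => |t| ^ (min q 3) := measurable_id.abs.pow_const _
      exact this.aestronglyMeasurable) hZ.aemeasurable]
    exact hmono (min q 3) hpos (min_le_left _ _)
  · rw [integral_map hZ.aemeasurable (by fun_prop)]
    exact h0
  · rw [integral_map hZ.aemeasurable (by fun_prop)]
    exact h1

end Pool.Agent.Work.MP_3574a2_pr.Gen
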