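import Pool.Agent.Work.MP_3574a2_pr.Dil.Main

/-!
# Gumbel limit for random Toeplitz matrices with general entries: the statements

Universality by a Lindeberg argument for the maximum of `exp (polylog n)` linear functionals.
-/

set_option autoImplicit false

namespace Pool.Agent.Work.MP_3574a2_pr.Gen

open MeasureTheory ProbabilityTheory Set Polynomial Filter Topology
open Pool.Agent.Work.MP_3574a2_pr.Dil
open scoped ENNReal NNReal

/-! ### A. Lindeberg comparison for finitely many linear functionals -/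

/-- A law with mean zero, variance one and a finite absolute moment of order `q`. -/
structure Law (μ : Measure ℝ) (q : ℝ) : Prop where
  prob : IsProbabilityMeasure μ
  int2 : Integrable (fun t : ℝ => t ^ 2) μ
  intq : Integrable (fun t : ℝ => |t| ^ q) μ
  mean : ∫ t, t ∂μ = 0
  var : ∫ t, t ^ 2 ∂μ = 1

/-- The absolute moment of order `q`. -/
noncomputable def mq (μ : Measure ℝ) (q : ℝ) : ℝ := ∫ t, |t| ^ q ∂μ

/-- Taylor bound for the test function along one coordinate. -/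
def StTaylor : Prop := ∀ (J : Type) [Fintype J] (A b : J → ℝ) (B q : ℝ), (∀ j, 0 ≤ A j) →
  (∀ j, |b j| ≤ B) → 0 ≤ B → 2 ≤ q → q ≤ 3 →
  ∃ a0 a1 a2 : ℝ, ∀ t : ℝ,
    |Real.exp (-∑ j, A j * Real.exp (b j * t)) - (a0 + a1 * t + a2 * t ^ 2)| ≤
      6 * (B * |t|) ^ q

/-- Replacement of the coordinates one by one. -/
def StSwap : Prop := ∀ (n : ℕ) (μ ν : Measure ℝ) (q K : ℝ) (f : (Fin n → ℝ) → ℝ), 2 ≤ q → 0 ≤ K →
  Law μ q → Law ν q → Measurable f → (∀ x, |f x| ≤ 1) →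
  (∀ (x : Fin n → ℝ) (i : Fin n), ∃ a0 a1 a2 : ℝ, ∀ t : ℝ,
    |f (Function.update x i t) - (a0 + a1 * t + a2 * t ^ 2)| ≤ K * |t| ^ q) →
  |∫ x, f x ∂(Measure.pi fun _ : Fin n => μ) - ∫ x, f x ∂(Measure.pi fun _ : Fin n => ν)| ≤
    n * (K * (mq μ q + mq ν q))

/-- Comparison of the two laws for finitely many linear functionals. -/
def StTransfer : Prop := ∀ (J : Type) [Fintype J] (n : ℕ) (μ ν : Measure ℝ) (q c0 β ε : ℝ)
  (c : J → Fin n → ℝ) (u : J → ℝ), 2 ≤ q → q ≤ 3 → Law μ q → Law ν q → 0 ≤ c0 →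
  (∀ j i, |c j i| ≤ c0) → 0 < β → 0 < ε →
  (Measure.pi fun _ : Fin n => μ).real {x | ∀ j, ∑ i, c j i * x i ≤ u j} ≤
    (Measure.pi fun _ : Fin n => ν).real {x | ∀ j, ∑ i, c j i * x i ≤ u j + ε} +
      n * (6 * (β * c0) ^ q * (mq μ q + mq ν q)) +
      2 * Fintype.card J * Real.exp (-(β * ε / 2))

/-- The standard Gaussian law has all moments. -/
def StGLaw : Prop := ∀ q : ℝ, 2 ≤ q → Law (gaussianReal 0 1) q

/-- A finite net of a class of sub-probability vectors. -/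
def StNet : Prop := ∀ (N k : ℕ) (S : Set (Fin N → ℝ)), Simp S → 1 ≤ k →
  ∃ (m : ℕ) (p : Fin m → Fin N → ℝ), m ≤ (k + 1) ^ N ∧ (∀ j, p j ∈ S) ∧
    ∀ (g : Fin N → ℝ) (G u : ℝ), (∀ i, |g i| ≤ G) → (∀ j, ∑ i, g i * p j i ≤ u) →
      spp S g ≤ u + N * G / k

/-! ### B. The noise as a family of linear functionals -/

/-- Extension of a vector by zero. -/
noncomputable def ex {m : ℕ} (x : Fin m → ℝ) : ℕ → ℝ := fun l => if h : l < m then x ⟨l, h⟩ else 0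

/-- The coefficients of the noise. -/
noncomputable def cf (M : ℕ) (k : ℤ) (l : ℕ) : ℝ :=
  (if l = 0 then Real.sqrt 2 else 2 * Real.cos (2 * Real.pi * k * l / (2 * M + 1))) /
    Real.sqrt (2 * M + 1)

/-- The noise is linear, with small coefficients. -/
def StCoef : Prop := (∀ (M : ℕ) (x : ℕ → ℝ) (k : ℤ),
    gk M x k = ∑ i : Fin (M + 1), cf M k i * x i) ∧
  (∀ (M : ℕ) (k : ℤ) (l : ℕ), |cf M k l| ≤ 2 / Real.sqrt (2 * M + 1)) ∧
  (∀ (M : ℕ) (x : ℕ → ℝ) (k : ℤ), gk M (ex fun i : Fin (M + 1) => x i) k = gk M x k)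

/-- The law of the first coordinates. -/
def StJoint.{u} : Prop := ∀ (Ω : Type u) (_ : MeasurableSpace Ω) (P : Measure Ω)
  (X : ℕ → Ω → ℝ) (μ : Measure ℝ) (m : ℕ), IsProbabilityMeasure P → (∀ k, Measurable (X k)) →
  iIndepFun X P → (∀ k, P.map (X k) = μ) →
  P.map (fun ω (i : Fin m) => X i ω) = Measure.pi fun _ : Fin m => μ

/-! ### C. The deterministic inequalities -/

/-- The good event of the lower bound of the distribution function. -/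
structure Good (n H M W N I : ℕ) (τ G u : ℝ) (x : ℕ → ℝ) : Prop where
  blk : ∀ i < I, spp (PP (n + H) (2 * M + 1) τ N)
    (fun l => gk M x ((i : ℤ) * N + 1 + (l : ℤ))) ≤ u
  crs : ∀ i < I, 1 ≤ i → spp (PP (n + H) (2 * M + 1) τ (4 * W + 1))
    (fun l => gk M x ((i : ℤ) * N - 2 * W + (l : ℤ))) ≤ u
  spc : ∀ k : ℕ, (k ≤ 2 * W ∨ I * N ≤ k + 2 * W) → k ≤ M → |gk M x k| ≤ u
  bdd : ∀ k : ℕ, k ≤ M → |gk M x k| ≤ G

/-- Deterministic part of the lower bound. -/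
def StLoDet : Prop := ∀ (n H W N I M : ℕ) (τ0 G K u : ℝ) (A : ℂ[X]) (x : ℕ → ℝ),
  1 ≤ n → M + 1 = n + H → 1 ≤ W → 4 * W + 1 ≤ N → 1 ≤ I → I * N ≤ M → Window M H W τ0 A →
  0 ≤ τ0 → 0 < K → 0 ≤ u → Good n H M W N I (τ0 + G / K) G u x →
  lamS n x ≤ Real.sqrt (2 * (M : ℝ) + 1) * (u + K * τ0 + 2 * G * (τ0 + G / K))

/-- Deterministic part of the upper bound. -/
def StUpDet : Prop := ∀ (n N I : ℕ) (τ G u : ℝ) (x : ℕ → ℝ), 1 ≤ n → I * N ≤ n - 1 →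
  Simp (PP n (2 * (n - 1) + 1) τ N) → 0 ≤ u - G * τ →
  (∀ k : ℕ, k ≤ n - 1 → |gk (n - 1) x k| ≤ G) →
  lamS n x ≤ Real.sqrt (2 * ((n - 1 : ℕ) : ℝ) + 1) * (u - G * τ) →
  ∀ i < I, spp (PP n (2 * (n - 1) + 1) τ N)
    (fun l => gk (n - 1) x ((i : ℤ) * N + 1 + (l : ℤ))) ≤ u

/-- Gaussian probability of the good event. -/
def StGaussLo : Prop := ∀ (n H W N I M : ℕ) (τ G u : ℝ), 1 ≤ n → M + 1 = n + H → 1 ≤ W →
  4 * W + 1 ≤ N → 1 ≤ I → I * N ≤ M → 0 ≤ G → 0 ≤ u →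
  Simp (PP (n + H) (2 * M + 1) τ N) → Simp (PP (n + H) (2 * M + 1) τ (4 * W + 1)) →
  (1 - Fb (PP (n + H) (2 * M + 1) τ N) u) ^ I -
      I * Fb (PP (n + H) (2 * M + 1) τ (4 * W + 1)) u -
      2 * ((M : ℝ) - I * N + 4 * W + 2) * Real.exp (-u ^ 2 / 4) -
      2 * ((M : ℝ) + 1) * Real.exp (-G ^ 2 / 4) ≤
    (gm (M + 1)).real {x | Good n H M W N I τ G u (ex x)}

/-- Gaussian probabilities of the upper bound. -/
def StGaussUp : Prop := ∀ (M : ℕ), (∀ (n N I : ℕ) (τ u : ℝ), I * N ≤ M →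
    Simp (PP n (2 * M + 1) τ N) →
    (gm (M + 1)).real {x | ∀ i < I, spp (PP n (2 * M + 1) τ N)
      (fun l => gk M (ex x) ((i : ℤ) * N + 1 + (l : ℤ))) ≤ u} =
      (1 - Fb (PP n (2 * M + 1) τ N) u) ^ I) ∧
  ∀ G : ℝ, 0 ≤ G → (gm (M + 1)).real {x | ∃ k : ℕ, k ≤ M ∧ G < |gk M (ex x) k|} ≤
    2 * ((M : ℝ) + 1) * Real.exp (-G ^ 2 / 4)

/-! ### D. The two inequalities for general entries -/

/-- The error of the comparison. -/
noncomputable def err (M : ℕ) (μ : Measure ℝ) (q β ε card : ℝ) : ℝ :=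
  ((M : ℝ) + 1) * (6 * (β * (2 / Real.sqrt (2 * M + 1))) ^ q *
    (mq μ q + mq (gaussianReal 0 1) q)) + 2 * card * Real.exp (-(β * ε / 2))

/-- Lower bound of the distribution function for general entries. -/
def StLoGen.{u} : Prop := ∀ (Ω : Type u) (_ : MeasurableSpace Ω) (P : Measure Ω)
  (X : ℕ → Ω → ℝ) (μ : Measure ℝ) (q : ℝ), IsProbabilityMeasure P → (∀ k, Measurable (X k)) →
  iIndepFun X P → (∀ k, P.map (X k) = μ) → 2 ≤ q → q ≤ 3 → Law μ q →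
  ∀ (n H W N I M k : ℕ) (τ0 G K u β ε : ℝ) (A : ℂ[X]),
  1 ≤ n → M + 1 = n + H → 1 ≤ W → 4 * W + 1 ≤ N → 1 ≤ I → I * N ≤ M → Window M H W τ0 A →
  0 ≤ τ0 → 0 < K → 1 ≤ k → 0 < β → 0 < ε → ε ≤ G → N * G / k + ε ≤ u →
  Simp (PP (n + H) (2 * M + 1) (τ0 + G / K) N) →
  Simp (PP (n + H) (2 * M + 1) (τ0 + G / K) (4 * W + 1)) →
  (1 - Fb (PP (n + H) (2 * M + 1) (τ0 + G / K) N) (u - (N * G / k + ε))) ^ I -
      I * Fb (PP (n + H) (2 * M + 1) (τ0 + G / K) (4 * W + 1)) (u - (N * G / k + ε)) -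
      2 * ((M : ℝ) - I * N + 4 * W + 2) * Real.exp (-(u - (N * G / k + ε)) ^ 2 / 4) -
      2 * ((M : ℝ) + 1) * Real.exp (-(G - ε) ^ 2 / 4) -
      err M μ q β ε (2 * I * ((k : ℝ) + 1) ^ N + 2 * (M + 1)) ≤
    P.real {ω | lamS n (fun k => X k ω) ≤
      Real.sqrt (2 * (M : ℝ) + 1) * (u + K * τ0 + 2 * G * (τ0 + G / K))}

/-- Upper bound of the distribution function for general entries. -/
def StUpGen.{u} : Prop := ∀ (Ω : Type u) (_ : MeasurableSpace Ω) (P : Measure Ω)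
  (X : ℕ → Ω → ℝ) (μ : Measure ℝ) (q : ℝ), IsProbabilityMeasure P → (∀ k, Measurable (X k)) →
  iIndepFun X P → (∀ k, P.map (X k) = μ) → 2 ≤ q → q ≤ 3 → Law μ q →
  ∀ (n N I k : ℕ) (τ G u β ε : ℝ), 1 ≤ n → I * N ≤ n - 1 → 1 ≤ k →
  Simp (PP n (2 * (n - 1) + 1) τ N) → 0 < β → 0 < ε → ε ≤ G → 0 ≤ u - G * τ →
  P.real {ω | lamS n (fun k => X k ω) ≤ Real.sqrt (2 * ((n - 1 : ℕ) : ℝ) + 1) * (u - G * τ)} ≤
    (1 - Fb (PP n (2 * (n - 1) + 1) τ N) (u + (N * G / k + ε))) ^ I +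
      4 * (n : ℝ) * Real.exp (-(G - ε) ^ 2 / 4) +
      2 * err (n - 1) μ q β ε (2 * I * ((k : ℝ) + 1) ^ N + 2 * n)

/-! ### E. The limit -/

/-- The precision. -/
noncomputable def ee (n : ℕ) : ℝ := 1 / (rr n : ℝ) ^ 21

/-- The inverse temperature. -/
noncomputable def be (n : ℕ) : ℝ := (rr n : ℝ) ^ 80

/-- The mesh of the net. -/
noncomputable def km (n : ℕ) : ℕ := (rr n) ^ 90

/-- The total shift of the level. -/
noncomputable def sh (n : ℕ) : ℝ := NN n * GG n / km n + ee n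

/-- The asymptotics of the errors. -/
def StErr : Prop := Tendsto (fun n => (rr n : ℝ) ^ 20 * sh n) atTop (𝓝 0) ∧
  Tendsto (fun n : ℕ => (n : ℝ) * Real.exp (-(GG n - ee n) ^ 2 / 4)) atTop (𝓝 0) ∧
  ∀ (μ : Measure ℝ) (q : ℝ), 2 < q → q ≤ 3 →
    ∀ (I M : ℕ → ℕ), (∀ᶠ n in atTop, I n ≤ n) → (∀ᶠ n in atTop, n ≤ M n + 1 ∧ M n ≤ 2 * n) →
    Tendsto (fun n => err (M n) μ q (be n) (ee n)
      (2 * I n * ((km n : ℝ) + 1) ^ (NN n) + 2 * (M n + 1))) atTop (𝓝 0)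

/-- The main theorem. -/
def StMain.{u} : Prop := ∃ a b : ℕ → ℝ, (∀ n, 0 < b n) ∧
  ∀ (Ω : Type u) (_ : MeasurableSpace Ω) (P : Measure Ω) (X : ℕ → Ω → ℝ) (μ : Measure ℝ) (q : ℝ),
  IsProbabilityMeasure P → (∀ k, Measurable (X k)) → iIndepFun X P →
  (∀ k, P.map (X k) = μ) → 2 < q → q ≤ 3 → Law μ q → ∀ x : ℝ,
  Tendsto (fun n => P.real {ω | (lam1 n (fun k => X k ω) - a n) / b n ≤ x}) atTop
    (𝓝 (Real.exp (-Real.exp (-x))))

end Pool.Agent.Work.MP_3574a2_pr.Gen
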