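import Mathlib
import Pool.Agent.Work.MP_3574a2_pr.Gen.Stmts

/-!
# The noise is linear with small coefficients
-/

set_option autoImplicit false

namespace Pool.Agent.Work.MP_3574a2_pr.Gen

open MeasureTheory ProbabilityTheory Set Polynomial Filter Topology
open Pool.Agent.Work.MP_3574a2_pr.Dil

namespace Coef

theorem sum_Icc_eq (M : ℕ) (g : ℕ → ℝ) :
    ∑ l ∈ Finset.Icc 1 M, g l = ∑ i : Fin M, g (i + 1) := by
  rw [Fin.sum_univ_eq_sum_range (fun i => g (i + 1)) M]
  rw [Finset.sum_bij (fun (a : ℕ) _ => a - 1)]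
  · intro a ha
    simp only [Finset.mem_Icc, Finset.mem_range] at *
    omega
  · intro a ha b hb h
    simp only [Finset.mem_Icc] at *
    omega
  · intro b hb
    refine ⟨b + 1, ?_, by simp⟩
    simp only [Finset.mem_Icc, Finset.mem_range] at *
    omega
  · intro a ha
    simp only [Finset.mem_Icc] at ha
    have : a - 1 + 1 = a := by omega
    rw [this]

theorem lin (M : ℕ) (x : ℕ → ℝ) (k : ℤ) :
    gk M x k = ∑ i : Fin (M + 1), cf M k i * x i := by
  rw [Fin.sum_univ_succ]
  unfold gk cf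
  rw [sum_Icc_eq]
  simp only [Fin.val_zero, if_true, Fin.val_succ, Nat.succ_ne_zero, if_false]
  rw [add_div, Finset.mul_sum, Finset.sum_div]
  congr 1
  · ring
  · refine Finset.sum_congr rfl fun i _ => ?_
    ring

theorem bnd (M : ℕ) (k : ℤ) (l : ℕ) : |cf M k l| ≤ 2 / Real.sqrt (2 * M + 1) := by
  unfold cf
  rw [abs_div, abs_of_nonneg (Real.sqrt_nonneg (2 * (M : ℝ) + 1))]
  refine div_le_div_of_nonneg_right ?_ (Real.sqrt_nonneg _)
  split_ifs
  · rw [abs_of_nonneg (Real.sqrt_nonneg _)]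
    rw [Real.sqrt_le_left (by norm_num)]
    norm_num
  · rw [abs_mul]
    have := Real.abs_cos_le_one (2 * Real.pi * k * l / (2 * M + 1))
    rw [abs_of_pos (by norm_num : (0:ℝ) < 2)]
    linarith

end Coef

theorem pr_Coef : StCoef := by
  refine ⟨Coef.lin, Coef.bnd, ?_⟩
  intro M x k
  rw [Coef.lin, Coef.lin]
  refine Finset.sum_congr rfl fun i _ => ?_
  congr 1
  unfold ex
  simp only [i.isLt, dif_pos]

end Pool.Agent.Work.MP_3574a2_pr.Gen
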