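import Pool.Agent.Work.MP_3574a2_pr.Gen.Stmts
import Mathlib

/-!
# Gumbel limit for random Toeplitz matrices with general entries: asymptotics of the errors
-/

set_option autoImplicit false

namespace Pool.Agent.Work.MP_3574a2_pr.Gen

open MeasureTheory ProbabilityTheory Set Filter Topology
open Pool.Agent.Work.MP_3574a2_pr.Dil

namespace Err

/-- The first limit. -/
lemma shift : Tendsto (fun n => (rr n : ℝ) ^ 20 * sh n) atTop (𝓝 0) := by
  have h1 := (inv_pow_tendsto 6 2 (by norm_num)).add (inv_pow_tendsto 1 1 (by norm_num))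
  rw [add_zero] at h1
  refine h1.congr' ?_
  filter_upwards [ev_rr 1] with n hr
  have hr' : (0 : ℝ) < rr n := by exact_mod_cast hr
  unfold sh NN GG km ee
  push_cast
  field_simp

/-- The second limit. -/
lemma gauss : Tendsto (fun n : ℕ => (n : ℝ) * Real.exp (-(GG n - ee n) ^ 2 / 4)) atTop (𝓝 0) := by
  have h1 := exp_tendsto.const_mul (Real.exp 3)
  rw [mul_zero] at h1
  refine squeeze_zero' (Eventually.of_forall fun n => by positivity) ?_ h1
  filter_upwards [ev_rr 1] with n hr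
  have hr' : (1 : ℝ) ≤ rr n := by exact_mod_cast hr
  have h2 : GG n * ee n ≤ 6 := by
    have e : GG n * ee n = 6 / rr n := by
      unfold GG ee
      field_simp
    rw [e, div_le_iff₀ (by linarith)]
    linarith
  have h3 : -(GG n - ee n) ^ 2 / 4 ≤ 3 + -GG n ^ 2 / 4 := by
    nlinarith [sq_nonneg (ee n)]
  calc (n : ℝ) * Real.exp (-(GG n - ee n) ^ 2 / 4)
      ≤ n * Real.exp (3 + -GG n ^ 2 / 4) := by gcongr
    _ = Real.exp 3 * (n * Real.exp (-GG n ^ 2 / 4)) := by rw [Real.exp_add]; ring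

/-- Powers of the logarithm against negative powers. -/
lemma log_pow (k : ℕ) (s : ℝ) (hs : 0 < s) :
    Tendsto (fun n : ℕ => (rr n : ℝ) ^ k * (n : ℝ) ^ (-s)) atTop (𝓝 0) := by
  have h1 : Tendsto (fun x : ℝ => (Real.log x) ^ (k : ℝ) / x ^ s) atTop (𝓝 0) :=
    (isLittleO_log_rpow_rpow_atTop (k : ℝ) hs).tendsto_div_nhds_zero
  have h2 := h1.comp tendsto_natCast_atTop_atTop (α := ℕ)
  refine squeeze_zero' (Eventually.of_forall fun n => by positivity) ?_ h2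
  filter_upwards [eventually_ge_atTop 1, ev_rr 1] with n hn hr
  simp only [Function.comp_apply]
  have h3 := rr_pow_le n
  have h4 : (1 : ℝ) ≤ rr n := by exact_mod_cast hr
  have h5 : (rr n : ℝ) ≤ Real.log n :=
    (le_self_pow₀ h4 (by norm_num)).trans h3
  have hn' : (0 : ℝ) < n := by exact_mod_cast hn
  rw [Real.rpow_neg hn'.le, Real.rpow_natCast, ← div_eq_mul_inv]
  gcongr

/-- The size of the net is at most `exp (r ^ 50)`. -/
lemma card_le (I M : ℕ → ℕ) (hI : ∀ᶠ n in atTop, I n ≤ n)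
    (hM : ∀ᶠ n in atTop, n ≤ M n + 1 ∧ M n ≤ 2 * n) :
    ∀ᶠ n in atTop, 2 * (I n : ℝ) * ((km n : ℝ) + 1) ^ (NN n) + 2 * ((M n : ℝ) + 1) ≤
      Real.exp ((rr n : ℝ) ^ 50) := by
  have h0 : ∀ᶠ x : ℝ in atTop, Real.log (x ^ 90 + 1) ≤ x := by
    have h : Tendsto (fun x : ℝ => Real.log x / x) atTop (𝓝 0) := by
      have := Real.isLittleO_log_id_atTop
      simpa using this.tendsto_div_nhds_zero
    filter_upwards [h.eventually_lt_const (show (0 : ℝ) < 1 / 91 by norm_num),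
      eventually_ge_atTop (2 : ℝ)] with x hx hx2
    have hx0 : 0 < x := by linarith
    rw [div_lt_iff₀ hx0] at hx
    have h1 : x ^ 90 + 1 ≤ x ^ 91 := by
      have : 1 ≤ x ^ 90 := one_le_pow₀ (by linarith)
      calc x ^ 90 + 1 ≤ x ^ 90 * 2 := by linarith
        _ ≤ x ^ 90 * x := by gcongr
        _ = x ^ 91 := by ring
    calc Real.log (x ^ 90 + 1) ≤ Real.log (x ^ 91) := Real.log_le_log (by positivity) h1
      _ = 91 * Real.log x := by rw [Real.log_pow]; norm_num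
      _ ≤ x := by linarith
  filter_upwards [hI, hM, rr_tendsto'.eventually h0, ev_rr 40, ev_rr' 8,
    eventually_ge_atTop 1] with n h1 ⟨_, h2⟩ h3 h4 _ hn
  have hr : (40 : ℝ) ≤ rr n := by exact_mod_cast h4
  have hn' : (0 : ℝ) < n := by exact_mod_cast hn
  have hn1 : (1 : ℝ) ≤ n := by exact_mod_cast hn
  have hI' : (I n : ℝ) ≤ n := by exact_mod_cast h1
  have hM' : (M n : ℝ) ≤ 2 * n := by exact_mod_cast h2
  have hk : (km n : ℝ) + 1 ≤ Real.exp (rr n) := by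
    have : (km n : ℝ) = (rr n : ℝ) ^ 90 := by unfold km; push_cast; ring
    rw [this, ← Real.log_le_iff_le_exp (by positivity)]
    exact h3
  have hN : ((km n : ℝ) + 1) ^ (NN n) ≤ Real.exp ((rr n : ℝ) ^ 49) := by
    calc ((km n : ℝ) + 1) ^ (NN n) ≤ (Real.exp (rr n)) ^ (NN n) := by gcongr
      _ = Real.exp ((rr n : ℝ) ^ 49) := by
        rw [← Real.exp_nat_mul]
        congr 1
        unfold NN
        push_cast
        ring
  have h5 : ((rr n : ℝ) + 1) ^ 40 ≤ 3 * (rr n : ℝ) ^ 40 := by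
    have e1 : (rr n : ℝ) + 1 = rr n * (1 + 1 / rr n) := by field_simp
    rw [e1, mul_pow, mul_comm]
    gcongr
    calc (1 + 1 / (rr n : ℝ)) ^ 40 ≤ (Real.exp (1 / rr n)) ^ 40 := by
          gcongr; linarith [Real.add_one_le_exp (1 / (rr n : ℝ))]
      _ = Real.exp (40 * (1 / rr n)) := by rw [← Real.exp_nat_mul]; norm_num
      _ ≤ Real.exp 1 := by
          apply Real.exp_le_exp.mpr
          rw [mul_one_div, div_le_one (by linarith)]; exact hr
      _ ≤ 3 := by linarith [Real.exp_one_lt_d9]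
  have h6 : Real.log n ≤ 3 * (rr n : ℝ) ^ 40 := (log_le n).trans h5
  have h7 : (n : ℝ) ≤ Real.exp (3 * (rr n : ℝ) ^ 40) := by
    rw [← Real.log_le_iff_le_exp hn']; exact h6
  have hr1 : (1 : ℝ) ≤ rr n := by linarith
  have hE : 1 ≤ Real.exp ((rr n : ℝ) ^ 49) := Real.one_le_exp (by positivity)
  have h8 : (8 : ℝ) ≤ Real.exp ((rr n : ℝ) ^ 40) := by
    have : (8 : ℝ) ≤ (rr n : ℝ) ^ 40 + 1 := by
      have := le_self_pow₀ hr1 (show (40 : ℕ) ≠ 0 by norm_num)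
      linarith
    exact this.trans (Real.add_one_le_exp _)
  calc 2 * (I n : ℝ) * ((km n : ℝ) + 1) ^ (NN n) + 2 * ((M n : ℝ) + 1)
      ≤ 2 * n * Real.exp ((rr n : ℝ) ^ 49) + 2 * (2 * n + n) := by gcongr
    _ ≤ 2 * n * Real.exp ((rr n : ℝ) ^ 49) + 6 * n * Real.exp ((rr n : ℝ) ^ 49) := by
        nlinarith
    _ = 8 * n * Real.exp ((rr n : ℝ) ^ 49) := by ring
    _ ≤ Real.exp ((rr n : ℝ) ^ 40) * Real.exp (3 * (rr n : ℝ) ^ 40) *
        Real.exp ((rr n : ℝ) ^ 49) := by gcongr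
    _ = Real.exp (4 * (rr n : ℝ) ^ 40 + (rr n : ℝ) ^ 49) := by
        rw [← Real.exp_add, ← Real.exp_add]; congr 1; ring
    _ ≤ Real.exp ((rr n : ℝ) ^ 50) := by
        apply Real.exp_le_exp.mpr
        have a1 : (rr n : ℝ) ^ 40 ≤ (rr n : ℝ) ^ 49 := pow_le_pow_right₀ hr1 (by norm_num)
        calc 4 * (rr n : ℝ) ^ 40 + (rr n : ℝ) ^ 49
            ≤ 4 * (rr n : ℝ) ^ 49 + (rr n : ℝ) ^ 49 := by gcongr
          _ = 5 * (rr n : ℝ) ^ 49 := by ring
          _ ≤ rr n * (rr n : ℝ) ^ 49 := by gcongr; linarith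
          _ = (rr n : ℝ) ^ 50 := by ring

/-- The second part of the error. -/
lemma part2 (c : ℕ → ℝ) (hc0 : ∀ᶠ n in atTop, 0 ≤ c n)
    (hc : ∀ᶠ n in atTop, c n ≤ Real.exp ((rr n : ℝ) ^ 50)) :
    Tendsto (fun n => 2 * c n * Real.exp (-(be n * ee n / 2))) atTop (𝓝 0) := by
  have h1 : Tendsto (fun n => 2 * Real.exp (-(rr n : ℝ))) atTop (𝓝 0) := by
    have := (Real.tendsto_exp_neg_atTop_nhds_zero.comp rr_tendsto').const_mul 2
    simpa using this
  refine squeeze_zero' ?_ ?_ h1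
  · filter_upwards [hc0] with n hn
    positivity
  filter_upwards [hc0, hc, ev_rr 2] with n h0 h2 hr
  have hr' : (2 : ℝ) ≤ rr n := by exact_mod_cast hr
  have hr1 : (1 : ℝ) ≤ rr n := by linarith
  have e : be n * ee n / 2 = (rr n : ℝ) ^ 59 / 2 := by
    unfold be ee
    field_simp
  have h3 : (rr n : ℝ) ^ 50 - (rr n : ℝ) ^ 59 / 2 ≤ -(rr n : ℝ) := by
    have a1 : (rr n : ℝ) ≤ (rr n : ℝ) ^ 50 := le_self_pow₀ hr1 (by norm_num)
    have a2 : (2 : ℝ) ^ 9 ≤ (rr n : ℝ) ^ 9 := by gcongr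
    have a3 : (rr n : ℝ) ^ 59 = (rr n : ℝ) ^ 9 * (rr n : ℝ) ^ 50 := by ring
    have a4 : (2 : ℝ) ^ 9 * (rr n : ℝ) ^ 50 ≤ (rr n : ℝ) ^ 59 := by rw [a3]; gcongr
    norm_num at a4
    nlinarith [pow_nonneg (Nat.cast_nonneg (α := ℝ) (rr n)) 50]
  calc 2 * c n * Real.exp (-(be n * ee n / 2))
      ≤ 2 * Real.exp ((rr n : ℝ) ^ 50) * Real.exp (-((rr n : ℝ) ^ 59 / 2)) := by
        rw [e]; gcongr
    _ = 2 * Real.exp ((rr n : ℝ) ^ 50 - (rr n : ℝ) ^ 59 / 2) := by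
        rw [mul_assoc, ← Real.exp_add]; congr 2
    _ ≤ 2 * Real.exp (-(rr n : ℝ)) := by gcongr

/-- The first part of the error. -/
lemma part1 (C q : ℝ) (hC : 0 ≤ C) (hq : 2 < q) (hq3 : q ≤ 3) (M : ℕ → ℕ)
    (hM : ∀ᶠ n in atTop, n ≤ M n + 1 ∧ M n ≤ 2 * n) :
    Tendsto (fun n => ((M n : ℝ) + 1) * (6 * (be n * (2 / Real.sqrt (2 * M n + 1))) ^ q * C))
      atTop (𝓝 0) := by
  have h1 := (log_pow 240 (q / 2 - 1) (by linarith)).const_mul (144 * C)
  rw [mul_zero] at h1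
  refine squeeze_zero' (Eventually.of_forall fun n => ?_) ?_ h1
  · have hb : 0 ≤ be n := by unfold be; positivity
    exact mul_nonneg (by positivity) (mul_nonneg (mul_nonneg (by norm_num)
      (Real.rpow_nonneg (mul_nonneg hb (by positivity)) _)) hC)
  filter_upwards [hM, ev_rr 1, eventually_ge_atTop 1] with n ⟨h2, h3⟩ hr hn
  have hr1 : (1 : ℝ) ≤ rr n := by exact_mod_cast hr
  have hn' : (0 : ℝ) < n := by exact_mod_cast hn
  have hn1 : (1 : ℝ) ≤ n := by exact_mod_cast hn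
  have h2' : (n : ℝ) ≤ M n + 1 := by exact_mod_cast h2
  have h3' : (M n : ℝ) ≤ 2 * n := by exact_mod_cast h3
  have hM1 : (n : ℝ) ≤ 2 * M n + 1 := by
    have : (0 : ℝ) ≤ M n := Nat.cast_nonneg _
    linarith
  have hb : be n * (2 / Real.sqrt (2 * M n + 1)) ≤ (2 * (rr n : ℝ) ^ 80) / Real.sqrt n := by
    have : Real.sqrt n ≤ Real.sqrt (2 * M n + 1) := Real.sqrt_le_sqrt hM1
    have hs : 0 < Real.sqrt n := Real.sqrt_pos.mpr hn'
    unfold be
    calc (rr n : ℝ) ^ 80 * (2 / Real.sqrt (2 * M n + 1)) ≤ (rr n : ℝ) ^ 80 * (2 / Real.sqrt n) := by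
          gcongr
      _ = _ := by ring
  have hb0 : 0 ≤ be n * (2 / Real.sqrt (2 * M n + 1)) := by
    have hb' : 0 ≤ be n := by unfold be; positivity
    exact mul_nonneg hb' (by positivity)
  have hp : (be n * (2 / Real.sqrt (2 * M n + 1))) ^ q ≤
      8 * (rr n : ℝ) ^ 240 * (n : ℝ) ^ (-(q / 2)) := by
    have hq0 : 0 ≤ q := by linarith
    calc (be n * (2 / Real.sqrt (2 * M n + 1))) ^ q
        ≤ ((2 * (rr n : ℝ) ^ 80) / Real.sqrt n) ^ q := Real.rpow_le_rpow hb0 hb hq0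
      _ = (2 * (rr n : ℝ) ^ 80) ^ q * (n : ℝ) ^ (-(q / 2)) := by
          rw [Real.div_rpow (by positivity) (Real.sqrt_nonneg _), Real.sqrt_eq_rpow,
            ← Real.rpow_mul hn'.le, div_eq_mul_inv, ← Real.rpow_neg hn'.le]
          congr 2
          ring
      _ ≤ (2 * (rr n : ℝ) ^ 80) ^ (3 : ℝ) * (n : ℝ) ^ (-(q / 2)) := by
          have h5 : 1 ≤ 2 * (rr n : ℝ) ^ 80 := by
            have : 1 ≤ (rr n : ℝ) ^ 80 := one_le_pow₀ hr1
            linarith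
          gcongr
      _ = 8 * (rr n : ℝ) ^ 240 * (n : ℝ) ^ (-(q / 2)) := by
          have : (2 * (rr n : ℝ) ^ 80) ^ (3 : ℝ) = 8 * (rr n : ℝ) ^ 240 := by
            rw [show (3 : ℝ) = ((3 : ℕ) : ℝ) by norm_num, Real.rpow_natCast]
            ring
          rw [this]
  have hn2 : (n : ℝ) * (n : ℝ) ^ (-(q / 2)) = (n : ℝ) ^ (-(q / 2 - 1)) := by
    rw [show -(q / 2 - 1) = 1 + -(q / 2) by ring, Real.rpow_add hn', Real.rpow_one]
  calc ((M n : ℝ) + 1) * (6 * (be n * (2 / Real.sqrt (2 * M n + 1))) ^ q * C)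
      ≤ (2 * n + n) * (6 * (8 * (rr n : ℝ) ^ 240 * (n : ℝ) ^ (-(q / 2))) * C) := by
        refine mul_le_mul (by linarith) (mul_le_mul_of_nonneg_right
          (mul_le_mul_of_nonneg_left hp (by norm_num)) hC)
          (mul_nonneg (mul_nonneg (by norm_num) (Real.rpow_nonneg hb0 _)) hC) (by positivity)
    _ = 144 * C * ((rr n : ℝ) ^ 240 * ((n : ℝ) * (n : ℝ) ^ (-(q / 2)))) := by ring
    _ = 144 * C * ((rr n : ℝ) ^ 240 * (n : ℝ) ^ (-(q / 2 - 1))) := by rw [hn2]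

end Err

/-- The asymptotics of the errors. -/
theorem pr_Err : StErr := by
  refine ⟨Err.shift, Err.gauss, fun μ q hq hq3 I M hI hM => ?_⟩
  have hC : 0 ≤ mq μ q + mq (gaussianReal 0 1) q := by
    unfold mq
    have h1 : 0 ≤ ∫ t, |t| ^ q ∂μ := integral_nonneg fun t => by positivity
    have h2 : 0 ≤ ∫ t, |t| ^ q ∂(gaussianReal 0 1) := integral_nonneg fun t => by positivity
    linarith
  have h1 := Err.part1 _ q hC hq hq3 M hM
  have h2 := Err.part2 (fun n => 2 * (I n : ℝ) * ((km n : ℝ) + 1) ^ (NN n) + 2 * ((M n : ℝ) + 1))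
    (Eventually.of_forall fun n => by positivity) (Err.card_le I M hI hM)
  have h3 := h1.add h2
  rw [add_zero] at h3
  exact h3

end Pool.Agent.Work.MP_3574a2_pr.Gen
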