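import Mathlib
import Pool.Agent.Work.MP_3574a2_pr.Gen.Stmts

set_option autoImplicit false

namespace Pool.Agent.Work.MP_3574a2_pr.Gen

open MeasureTheory ProbabilityTheory Set Polynomial Filter Topology
open Pool.Agent.Work.MP_3574a2_pr.Dil
open scoped ENNReal NNReal

theorem pr_GLaw : StGLaw := by
  intro q hq
  have h2 : MemLp (id : ℝ → ℝ) 2 (gaussianReal 0 1) :=
    memLp_id_gaussianReal' 2 (by norm_num)
  have hqL : MemLp (id : ℝ → ℝ) (ENNReal.ofReal q) (gaussianReal 0 1) :=
    memLp_id_gaussianReal' _ ENNReal.ofReal_ne_top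
  refine ⟨inferInstance, ?_, ?_, ?_, ?_⟩
  · exact h2.integrable_sq
  · have h := hqL.integrable_norm_rpow (by
      rw [ne_eq, ENNReal.ofReal_eq_zero, not_le]; linarith) ENNReal.ofReal_ne_top
    rw [ENNReal.toReal_ofReal (by linarith)] at h
    exact h
  · exact integral_id_gaussianReal
  · have hv : Var[(id : ℝ → ℝ); gaussianReal 0 1] = 1 := by
      rw [variance_id_gaussianReal]
      simp
    rw [variance_eq_sub h2] at hv
    have h3 : ∫ t, (id : ℝ → ℝ) t ∂(gaussianReal 0 1) = 0 := integral_id_gaussianReal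
    rw [h3] at hv
    simpa using hv

end Pool.Agent.Work.MP_3574a2_pr.Gen
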