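import Pool.Agent.Work.MP_3574a2_pr.Gen.Stmts

/-!
# Gumbel limit for random Toeplitz matrices with general entries: item GaussLo
-/

set_option autoImplicit false

namespace Pool.Agent.Work.MP_3574a2_pr.Gen

open MeasureTheory ProbabilityTheory Set Polynomial Filter Topology
open Pool.Agent.Work.MP_3574a2_pr.Dil
open scoped ENNReal NNReal

namespace GaussLo

/-- The good event depends on the noise only. -/
theorem good_congr {n H M W N I : ℕ} {τ G u : ℝ} {x y : ℕ → ℝ} (h : ∀ k, gk M x k = gk M y k)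
    (hx : Good n H M W N I τ G u x) : Good n H M W N I τ G u y := by
  refine ⟨?_, ?_, ?_, ?_⟩
  · intro i hi
    have := hx.blk i hi
    simpa only [h] using this
  · intro i hi h1
    have := hx.crs i hi h1
    simpa only [h] using this
  · intro k hk hk'
    rw [← h]
    exact hx.spc k hk hk'
  · intro k hk
    rw [← h]
    exact hx.bdd k hk

section

variable {Ω : Type} [mΩ : MeasurableSpace Ω] (P : Measure Ω) [hP : IsProbabilityMeasure P]
  (X : ℕ → Ω → ℝ)

include hP in
/-- The probability of the good event for Gaussian entries. -/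
theorem good_ineq (hGauss : ClaimGauss.{0}) (hBlocks : ClaimBlocks.{0}) (hMax : ClaimMax.{0})
    (hSpp : ClaimSpp) (hmeas : ∀ k, Measurable (X k)) (hind : iIndepFun X P)
    (hlaw : ∀ k, P.map (X k) = gaussianReal 0 1) (n H W N I M : ℕ) (τ G u : ℝ)
    (_hn : 1 ≤ n) (_hM : M + 1 = n + H) (_hW : 1 ≤ W) (hWN : 4 * W + 1 ≤ N) (hI : 1 ≤ I)
    (hIM : I * N ≤ M) (hG : 0 ≤ G)
    (hu : 0 ≤ u) (hS : Simp (PP (n + H) (2 * M + 1) τ N))
    (hS' : Simp (PP (n + H) (2 * M + 1) τ (4 * W + 1))) :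
    (1 - Fb (PP (n + H) (2 * M + 1) τ N) u) ^ I -
        I * Fb (PP (n + H) (2 * M + 1) τ (4 * W + 1)) u -
        2 * ((M : ℝ) - I * N + 4 * W + 2) * Real.exp (-u ^ 2 / 4) -
        2 * ((M : ℝ) + 1) * Real.exp (-G ^ 2 / 4) ≤
      P.real {ω | Good n H M W N I τ G u (fun l => X l ω)} := by
  obtain ⟨g1, g2, g3⟩ := hGauss Ω mΩ P X hP hmeas hind hlaw M
  have hgm : ∀ k : ℤ, Measurable (fun ω => gk M (fun l => X l ω) k) := by
    intro k; unfold gk; fun_prop
  set Y : Fin M → Ω → ℝ := fun k ω => gk M (fun l => X l ω) ((k : ℤ) + 1) with hY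
  -- the blocks
  have hfl : ∀ (i : Fin I) (l : Fin N), (i : ℕ) * N + (l : ℕ) < M := by
    intro i l
    have h1 : (i : ℕ) * N + (l : ℕ) < ((i : ℕ) + 1) * N := by nlinarith [l.2]
    have h2 : ((i : ℕ) + 1) * N ≤ I * N := Nat.mul_le_mul_right _ i.2
    omega
  set f : Fin I → Fin N → Fin M := fun i l => ⟨(i : ℕ) * N + l, hfl i l⟩ with hf
  have hinj : Function.Injective (fun q : Fin I × Fin N => f q.1 q.2) := by
    rintro ⟨i, l⟩ ⟨i', l'⟩ h
    simp only [hf, Fin.mk.injEq] at h
    have hN : 0 < N := lt_of_le_of_lt (Nat.zero_le _) l.2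
    have h1 : (i : ℕ) = i' := by
      have a1 : ((i : ℕ) * N + l) / N = i := by
        rw [mul_comm, Nat.mul_add_div hN, Nat.div_eq_of_lt l.2, add_zero]
      have a2 : ((i' : ℕ) * N + l') / N = i' := by
        rw [mul_comm, Nat.mul_add_div hN, Nat.div_eq_of_lt l'.2, add_zero]
      rw [← a1, h, a2]
    have h2 : (l : ℕ) = l' := by rw [h1] at h; omega
    exact Prod.ext (Fin.ext h1) (Fin.ext h2)
  have hb := hBlocks Ω mΩ P M N I Y f (PP (n + H) (2 * M + 1) τ N) u hP
    (fun k => hgm _) g1 g2 hinj hS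
  have hNI : N ≤ I * N := Nat.le_mul_of_pos_left _ hI
  -- the crossing blocks
  have hcl : ∀ (i : Fin I) (l : Fin (4 * W + 1)), (i : ℕ) * N + (l : ℕ) - (2 * W + 1) < M := by
    intro i l
    have h2 : ((i : ℕ) + 1) * N ≤ I * N := Nat.mul_le_mul_right _ i.2
    have h3 : ((i : ℕ) + 1) * N = (i : ℕ) * N + N := by ring
    have := l.2
    omega
  set c : Fin I → Fin (4 * W + 1) → Fin M :=
    fun i l => ⟨(i : ℕ) * N + l - (2 * W + 1), hcl i l⟩ with hc
  have hge : ∀ i : Fin I, 1 ≤ (i : ℕ) → N ≤ (i : ℕ) * N := fun i h => Nat.le_mul_of_pos_left _ h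
  have hcinj : ∀ i : Fin I, 1 ≤ (i : ℕ) → Function.Injective (c i) := by
    intro i hi l l' h
    simp only [hc, Fin.mk.injEq] at h
    have := hge i hi
    exact Fin.ext (by omega)
  have hcr : ∀ i : Fin I, 1 ≤ (i : ℕ) →
      P.real {ω | u < spp (PP (n + H) (2 * M + 1) τ (4 * W + 1))
        (fun l => Y (c i l) ω)} = Fb (PP (n + H) (2 * M + 1) τ (4 * W + 1)) u :=
    fun i hi => prob_spp P hBlocks hSpp Y (fun k => hgm _) g1 g2 (c i) (hcinj i hi) _ hS' u
  -- the special frequencies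
  have hs1l : ∀ k : Fin (2 * W), (k : ℕ) < M := fun k => by have := k.2; omega
  have hs1 := hMax Ω mΩ P (2 * W) (fun k => Y ⟨k, hs1l k⟩) 1 u hP (fun k => hgm _)
    (fun k => g2 _) (by norm_num) hu
  have hs2l : ∀ k : Fin (M - I * N + 2 * W + 1), I * N - (2 * W + 1) + (k : ℕ) < M := fun k => by
    have := k.2; omega
  have hs2 := hMax Ω mΩ P (M - I * N + 2 * W + 1) (fun k => Y ⟨I * N - (2 * W + 1) + k, hs2l k⟩)
    1 u hP (fun k => hgm _) (fun k => g2 _) (by norm_num) hu
  have hs3 := hMax Ω mΩ P 1 (fun _ ω => gk M (fun l => X l ω) 0) 2 u hP (fun k => hgm _)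
    (fun _ => g3) (le_refl _) hu
  -- the bound of the noise
  have hm1 := hMax Ω mΩ P M Y 1 G hP (fun k => hgm _) g2 (by norm_num) hG
  have hm2 := hMax Ω mΩ P 1 (fun _ ω => gk M (fun l => X l ω) 0) 2 G hP (fun k => hgm _)
    (fun _ => g3) (le_refl _) hG
  set E0 := {ω | Good n H M W N I τ G u (fun l => X l ω)} with hE0
  set E1 : Fin I → Set Ω := fun i => {ω | 1 ≤ (i : ℕ) ∧
    u < spp (PP (n + H) (2 * M + 1) τ (4 * W + 1)) (fun l => Y (c i l) ω)} with hE1
  set F1 := {ω | ∃ k : Fin (2 * W), u < |Y ⟨k, hs1l k⟩ ω|} with hF1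
  set F2 := {ω | ∃ k : Fin (M - I * N + 2 * W + 1),
    u < |Y ⟨I * N - (2 * W + 1) + k, hs2l k⟩ ω|} with hF2
  set F3 := {ω | ∃ _k : Fin 1, u < |gk M (fun l => X l ω) 0|} with hF3
  set F4 := {ω | ∃ k, G < |Y k ω|} with hF4
  set F5 := {ω | ∃ _k : Fin 1, G < |gk M (fun l => X l ω) 0|} with hF5
  have hsub : {ω | ∀ i, spp (PP (n + H) (2 * M + 1) τ N) (fun l => Y (f i l) ω) ≤ u} ⊆
      E0 ∪ ((⋃ i, E1 i) ∪ ((F1 ∪ (F2 ∪ F3)) ∪ (F4 ∪ F5))) := by
    intro ω hω
    by_contra hcon
    simp only [mem_union, not_or, mem_iUnion, not_exists] at hcon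
    obtain ⟨h0, h1, ⟨f1, f2, f3⟩, f4, f5⟩ := hcon
    simp only [hF1, hF2, hF3, hF4, hF5, mem_ofPred_eq, not_exists, not_lt] at f1 f2 f3 f4 f5
    simp only [hE1, mem_ofPred_eq, not_and, not_lt] at h1
    simp only [mem_ofPred_eq] at hω
    apply h0
    rw [hE0, mem_ofPred_eq]
    refine ⟨?_, ?_, ?_, ?_⟩
    · intro i hi
      have := hω ⟨i, hi⟩
      have e : (fun l : Fin N => Y (f ⟨i, hi⟩ l) ω) =
          fun l : Fin N => gk M (fun l => X l ω) ((i : ℤ) * N + 1 + (l : ℤ)) := by
        funext l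
        simp only [hY, hf]
        congr 1
        push_cast; ring
      rwa [e] at this
    · intro i hi hi1
      have := h1 ⟨i, hi⟩ hi1
      have hg := hge ⟨i, hi⟩ hi1
      have e : (fun l : Fin (4 * W + 1) => Y (c ⟨i, hi⟩ l) ω) =
          fun l : Fin (4 * W + 1) => gk M (fun l => X l ω) ((i : ℤ) * N - 2 * W + (l : ℤ)) := by
        funext l
        simp only [hY, hc]
        congr 1
        simp only [] at hg
        push_cast [Nat.cast_sub (show 2 * W + 1 ≤ i * N + (l : ℕ) by omega)]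
        ring
      rwa [e] at this
    · intro k hk hkM
      rcases hk with hk | hk
      · rcases Nat.eq_zero_or_pos k with h | h
        · subst h; simpa using f3 0
        · have := f1 ⟨k - 1, by omega⟩
          simp only [hY] at this
          have e : (((k - 1 : ℕ) : ℤ) + 1) = k := by omega
          rwa [e] at this
      · have := f2 ⟨k - (I * N - 2 * W), by omega⟩
        simp only [hY] at this
        have e : ((I * N - (2 * W + 1) + (k - (I * N - 2 * W)) : ℕ) : ℤ) + 1 = k := by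
          omega
        rwa [e] at this
    · intro k hkM
      rcases Nat.eq_zero_or_pos k with h | h
      · subst h; simpa using f5 0
      · have := f4 ⟨k - 1, by omega⟩
        simp only [hY] at this
        have e : (((k - 1 : ℕ) : ℤ) + 1) = k := by omega
        rwa [e] at this
  have hE1b : ∀ i, P.real (E1 i) ≤ Fb (PP (n + H) (2 * M + 1) τ (4 * W + 1)) u := by
    intro i
    by_cases hi : 1 ≤ (i : ℕ)
    · rw [← hcr i hi]
      exact measureReal_mono (fun ω h => h.2) (measure_ne_top _ _)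
    · have : E1 i = ∅ := by
        ext ω; simp [hE1, hi]
      rw [this]; simp only [measureReal_empty]
      unfold Fb; positivity
  have hU : P.real (⋃ i, E1 i) ≤ I * Fb (PP (n + H) (2 * M + 1) τ (4 * W + 1)) u := by
    refine (measureReal_iUnion_fintype_le _).trans ?_
    refine (Finset.sum_le_sum fun i _ => hE1b i).trans ?_
    simp
  have hcast : ((M - I * N + 2 * W + 1 : ℕ) : ℝ) = (M : ℝ) - I * N + 2 * W + 1 := by
    push_cast [Nat.cast_sub hIM]; ring
  have htot := calc
    (1 - Fb (PP (n + H) (2 * M + 1) τ N) u) ^ I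
      = P.real {ω | ∀ i, spp (PP (n + H) (2 * M + 1) τ N)
          (fun l => Y (f i l) ω) ≤ u} := hb.symm
    _ ≤ P.real (E0 ∪ ((⋃ i, E1 i) ∪ ((F1 ∪ (F2 ∪ F3)) ∪ (F4 ∪ F5)))) :=
        measureReal_mono hsub (measure_ne_top _ _)
    _ ≤ P.real E0 + (P.real (⋃ i, E1 i) + ((P.real F1 + (P.real F2 + P.real F3)) +
          (P.real F4 + P.real F5))) := by
        refine (measureReal_union_le _ _).trans (add_le_add_right ?_ _)
        refine (measureReal_union_le _ _).trans (add_le_add_right ?_ _)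
        refine (measureReal_union_le _ _).trans (add_le_add ?_ (measureReal_union_le _ _))
        refine (measureReal_union_le _ _).trans (add_le_add_right ?_ _)
        exact measureReal_union_le _ _
  rw [hcast] at hs2
  push_cast at hs1 hs3 hm2
  linarith

end

end GaussLo

open GaussLo in
theorem pr_GaussLo (hCoef : StCoef) (hJoint : StJoint.{0}) (hGauss : ClaimGauss.{0})
    (hBlocks : ClaimBlocks.{0}) (hMax : ClaimMax.{0}) (hSpp : ClaimSpp) : StGaussLo := by
  intro n H W N I M τ G u hn hM hW hWN hI hIM hG hu hS hS'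
  set P : Measure (ℕ → ℝ) := Measure.infinitePi (fun _ => gaussianReal 0 1) with hPdef
  have hind : iIndepFun (fun (k : ℕ) (ω : ℕ → ℝ) => ω k) P :=
    iIndepFun_infinitePi (X := fun _ (t : ℝ) => t) (fun _ => measurable_id)
  have hmeas : ∀ k : ℕ, Measurable (fun ω : ℕ → ℝ => ω k) := fun k => measurable_pi_apply k
  have hlaw : ∀ k : ℕ, P.map (fun ω : ℕ → ℝ => ω k) = gaussianReal 0 1 := fun k =>
    (measurePreserving_eval_infinitePi (fun _ : ℕ => gaussianReal 0 1) k).map_eq
  refine (good_ineq P (fun k ω => ω k) hGauss hBlocks hMax hSpp hmeas hind hlaw n H W N I M τ G u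
    hn hM hW hWN hI hIM hG hu hS hS').trans ?_
  have hJ := hJoint (ℕ → ℝ) inferInstance P (fun k ω => ω k) (gaussianReal 0 1) (M + 1)
    inferInstance hmeas hind hlaw
  have hfm : Measurable (fun (ω : ℕ → ℝ) (i : Fin (M + 1)) => ω i) :=
    measurable_pi_lambda _ fun i => measurable_pi_apply _
  have hgm : gm (M + 1) = P.map (fun (ω : ℕ → ℝ) (i : Fin (M + 1)) => ω i) := hJ.symm
  have h1 : P {ω | Good n H M W N I τ G u (fun l => ω l)} ≤
      gm (M + 1) {x | Good n H M W N I τ G u (ex x)} := by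
    rw [hgm]
    refine le_trans (measure_mono ?_) (Measure.le_map_apply hfm.aemeasurable _)
    intro ω hω
    show Good n H M W N I τ G u (ex fun i : Fin (M + 1) => ω i)
    exact good_congr (fun k => (hCoef.2.2 M ω k).symm) hω
  have hfin : gm (M + 1) {x | Good n H M W N I τ G u (ex x)} ≠ ⊤ := by
    have : IsProbabilityMeasure (gm (M + 1)) := by
      unfold gm
      infer_instance
    exact measure_ne_top _ _
  exact ENNReal.toReal_mono hfin h1

end Pool.Agent.Work.MP_3574a2_pr.Gen
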