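import Pool.Agent.Work.MP_3574a2_pr.Gen.Stmts

/-!
# Gumbel limit for random Toeplitz matrices with general entries: Gaussian probabilities of the
upper bound
-/

set_option autoImplicit false

namespace Pool.Agent.Work.MP_3574a2_pr.Gen

open MeasureTheory ProbabilityTheory Set Polynomial Filter Topology
open Pool.Agent.Work.MP_3574a2_pr.Dil
open scoped ENNReal NNReal

namespace GaussUp

/-- the sample space -/
noncomputable def PI : Measure (ℕ → ℝ) := Measure.infinitePi fun _ => gaussianReal 0 1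

instance : IsProbabilityMeasure PI := by unfold PI; infer_instance

theorem PI_indep : iIndepFun (fun (k : ℕ) (ω : ℕ → ℝ) => ω k) PI :=
  iIndepFun_infinitePi (P := fun _ : ℕ => gaussianReal 0 1) (X := fun _ x => x)
    (fun _ => measurable_id)

theorem PI_map (k : ℕ) : PI.map (fun ω : ℕ → ℝ => ω k) = gaussianReal 0 1 :=
  Measure.infinitePi_map_eval (fun _ : ℕ => gaussianReal 0 1) k

theorem ex_meas {m : ℕ} (l : ℕ) : Measurable (fun x : Fin m → ℝ => ex x l) := by
  unfold ex
  by_cases h : l < m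
  · simp only [h, dite_true]
    exact measurable_pi_apply _
  · simp only [h, dite_false]
    exact measurable_const

theorem gk_ex_meas {m : ℕ} (M : ℕ) (k : ℤ) : Measurable (fun x : Fin m → ℝ => gk M (ex x) k) := by
  have h := fun l => ex_meas (m := m) l
  unfold gk
  fun_prop

theorem gk_meas (M : ℕ) (k : ℤ) : Measurable (fun ω : ℕ → ℝ => gk M (fun l => ω l) k) := by
  unfold gk
  fun_prop

theorem gm_eq (hJoint : StJoint.{0}) (m : ℕ) :
    PI.map (fun (ω : ℕ → ℝ) (i : Fin m) => ω i) = gm m :=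
  hJoint (ℕ → ℝ) _ PI (fun k ω => ω k) (gaussianReal 0 1) m inferInstance
    (fun k => measurable_pi_apply k) PI_indep PI_map

theorem gm_real (hJoint : StJoint.{0}) (m : ℕ) (S : Set (Fin m → ℝ)) (hS : MeasurableSet S) :
    (gm m).real S = PI.real {ω | (fun i : Fin m => ω i) ∈ S} := by
  rw [← gm_eq hJoint m, map_measureReal_apply (by fun_prop) hS]
  rfl

end GaussUp

open GaussUp in
theorem pr_GaussUp (hCoef : StCoef) (hJoint : StJoint.{0}) (hGauss : ClaimGauss.{0})
    (hBlocks : ClaimBlocks.{0}) (hMax : ClaimMax.{0}) (hSpp : ClaimSpp) : StGaussUp := by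
  intro M
  obtain ⟨g1, g2, g3⟩ := hGauss (ℕ → ℝ) _ PI (fun k ω => ω k) inferInstance
    (fun k => measurable_pi_apply k) PI_indep PI_map M
  refine ⟨?_, ?_⟩
  · intro n N I τ u hI hS
    have hmS : MeasurableSet {x : Fin (M + 1) → ℝ | ∀ i < I, spp (PP n (2 * M + 1) τ N)
      (fun l => gk M (ex x) ((i : ℤ) * N + 1 + (l : ℤ))) ≤ u} := by
      have hc := (hSpp N _ hS).1
      have h1 : ∀ i : ℕ, MeasurableSet {x : Fin (M + 1) → ℝ | i < I → spp (PP n (2 * M + 1) τ N)
          (fun l => gk M (ex x) ((i : ℤ) * N + 1 + (l : ℤ))) ≤ u} := by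
        intro i
        by_cases hi : i < I
        · simp only [hi, forall_const]
          exact measurableSet_le (hc.measurable.comp (measurable_pi_lambda _ fun l =>
            gk_ex_meas M _)) measurable_const
        · simp only [hi, false_imp_iff]
          exact MeasurableSet.univ
      have e : {x : Fin (M + 1) → ℝ | ∀ i < I, spp (PP n (2 * M + 1) τ N)
          (fun l => gk M (ex x) ((i : ℤ) * N + 1 + (l : ℤ))) ≤ u} =
          ⋂ i : ℕ, {x : Fin (M + 1) → ℝ | i < I → spp (PP n (2 * M + 1) τ N)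
          (fun l => gk M (ex x) ((i : ℤ) * N + 1 + (l : ℤ))) ≤ u} := by
        ext x; simp only [mem_ofPred_eq, mem_iInter]
      rw [e]
      exact MeasurableSet.iInter h1
    rw [gm_real hJoint _ _ hmS]
    -- the blocks
    have hfl : ∀ (i : Fin I) (l : Fin N), (i : ℕ) * N + (l : ℕ) < M := by
      intro i l
      have h1 : (i : ℕ) * N + (l : ℕ) < ((i : ℕ) + 1) * N := by nlinarith [l.2]
      have h2 : ((i : ℕ) + 1) * N ≤ I * N := Nat.mul_le_mul_right _ i.2
      omega
    let f : Fin I → Fin N → Fin M := fun i l => ⟨(i : ℕ) * N + l, hfl i l⟩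
    have hinj : Function.Injective (fun q : Fin I × Fin N => f q.1 q.2) := by
      rintro ⟨i, l⟩ ⟨i', l'⟩ h
      simp only [f, Fin.mk.injEq] at h
      have hN : 0 < N := lt_of_le_of_lt (Nat.zero_le _) l.2
      have h1 : (i : ℕ) = i' := by
        have a1 : ((i : ℕ) * N + l) / N = i := by
          rw [mul_comm, Nat.mul_add_div hN, Nat.div_eq_of_lt l.2, add_zero]
        have a2 : ((i' : ℕ) * N + l') / N = i' := by
          rw [mul_comm, Nat.mul_add_div hN, Nat.div_eq_of_lt l'.2, add_zero]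
        rw [← a1, h, a2]
      have h2 : (l : ℕ) = l' := by rw [h1] at h; omega
      exact Prod.ext (Fin.ext h1) (Fin.ext h2)
    have hb := hBlocks (ℕ → ℝ) _ PI M N I
      (fun (k : Fin M) ω => gk M (fun l => ω l) ((k : ℤ) + 1)) f (PP n (2 * M + 1) τ N) u
      inferInstance (fun k => gk_meas M _) g1 g2 hinj hS
    rw [← hb]
    congr 1
    ext ω
    simp only [mem_ofPred_eq]
    have e : ∀ i : Fin I, (fun l : Fin N => gk M (fun l => ω l) (((f i l : Fin M) : ℤ) + 1)) =
        fun l : Fin N => gk M (ex fun i : Fin (M + 1) => ω i)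
          (((i : ℕ) : ℤ) * N + 1 + (l : ℤ)) := by
      intro i
      funext l
      rw [hCoef.2.2 M ω]
      congr 1
      show (((i : ℕ) * N + (l : ℕ) : ℕ) : ℤ) + 1 = _
      push_cast; ring
    constructor
    · intro h i
      have := h i i.2
      rw [e i]
      exact this
    · intro h i hi
      have := h ⟨i, hi⟩
      rw [e ⟨i, hi⟩] at this
      exact this
  · intro G hG
    have hmS : MeasurableSet {x : Fin (M + 1) → ℝ | ∃ k : ℕ, k ≤ M ∧ G < |gk M (ex x) k|} := by
      have e : {x : Fin (M + 1) → ℝ | ∃ k : ℕ, k ≤ M ∧ G < |gk M (ex x) k|} =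
          ⋃ k : ℕ, {x : Fin (M + 1) → ℝ | k ≤ M ∧ G < |gk M (ex x) k|} := by
        ext x; simp only [mem_ofPred_eq, mem_iUnion]
      rw [e]
      refine MeasurableSet.iUnion fun k => ?_
      by_cases hk : k ≤ M
      · simp only [hk, true_and]
        exact measurableSet_lt measurable_const (gk_ex_meas M _).abs
      · simp only [hk, false_and]
        exact MeasurableSet.empty
    rw [gm_real hJoint _ _ hmS]
    have hm1 := hMax (ℕ → ℝ) _ PI M (fun (k : Fin M) ω => gk M (fun l => ω l) ((k : ℤ) + 1)) 1 G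
      inferInstance (fun k => gk_meas M _) g2 (by norm_num) hG
    have hm2 := hMax (ℕ → ℝ) _ PI 1 (fun _ ω => gk M (fun l => ω l) 0) 2 G inferInstance
      (fun k => gk_meas M _) (fun _ => g3) (le_refl _) hG
    have hsub : {ω : ℕ → ℝ | (fun i : Fin (M + 1) => ω i) ∈
        {x : Fin (M + 1) → ℝ | ∃ k : ℕ, k ≤ M ∧ G < |gk M (ex x) k|}} ⊆
        {ω : ℕ → ℝ | ∃ k : Fin M, G < |gk M (fun l => ω l) ((k : ℤ) + 1)|} ∪
        {ω : ℕ → ℝ | ∃ _k : Fin 1, G < |gk M (fun l => ω l) 0|} := by
      rintro ω ⟨k, hk, hG'⟩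
      rw [hCoef.2.2 M ω] at hG'
      rcases Nat.eq_zero_or_pos k with h | h
      · right
        refine ⟨0, ?_⟩
        rw [h] at hG'
        simpa using hG'
      · left
        refine ⟨⟨k - 1, by omega⟩, ?_⟩
        have e : (((⟨k - 1, by omega⟩ : Fin M) : ℕ) : ℤ) + 1 = (k : ℤ) := by
          simp only []; omega
        rw [e]
        exact hG'
    refine (measureReal_mono hsub (measure_ne_top _ _)).trans
      ((measureReal_union_le _ _).trans ?_)
    push_cast at hm1 hm2
    linarith

end Pool.Agent.Work.MP_3574a2_pr.Gen
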