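import Pool.Agent.Work.MP_3574a2_pr.Gen.Stmts
import Mathlib

/-!
# The law of the first coordinates
-/

set_option autoImplicit false

namespace Pool.Agent.Work.MP_3574a2_pr.Gen

open MeasureTheory ProbabilityTheory Set Filter Topology

theorem pr_Joint.{u} : StJoint.{u} := by
  intro Ω _ P X μ m hP hm hind hlaw
  have h1 : iIndepFun (fun i : Fin m => X i) P := hind.precomp Fin.val_injective
  have h2 := (iIndepFun_iff_map_fun_eq_pi_map (fun i : Fin m => (hm i).aemeasurable)).1 h1
  rw [h2]
  congr 1
  funext i
  exact hlaw i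

end Pool.Agent.Work.MP_3574a2_pr.Gen
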