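import Pool.Agent.Work.MP_3574a2_pr.Gen.Stmts

set_option autoImplicit false

namespace Pool.Agent.Work.MP_3574a2_pr.Gen

open MeasureTheory ProbabilityTheory Set Polynomial Filter Topology
open Pool.Agent.Work.MP_3574a2_pr.Dil
open scoped ENNReal NNReal

theorem pr_LoDet (hNoise : ClaimNoise) (hQuad : ClaimQuad) (hLam : ClaimLam)
    (hUpper : ClaimUpper) : StLoDet := by
  intro n H W N I M τ0 G K u A x hn hM hW hWN hI hIM hA hτ0 hK hu hgood
  have hno : Noise M (gk M x) G := by
    refine noise_of hNoise M x G ?_ ?_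
    · exact hgood.bdd 0 (Nat.zero_le _)
    · intro k
      have := hgood.bdd ((k : ℕ) + 1) (by have := k.2; omega)
      push_cast at this
      exact this
  have hNI : N ≤ I * N := Nat.le_mul_of_pos_left _ hI
  obtain ⟨w, w1, w2, w3⟩ := (hLam n x hn).2
  have q := hQuad M n x w (by omega) w1
  have hup := hUpper M n H W N I τ0 G K u A w (gk M x) (by omega) hW hWN hI hIM
    hA hno hτ0 hK hu hgood.blk hgood.crs
    (by
      intro k hk
      refine le_trans (le_abs_self _) ?_
      have hz : ((I * N : ℕ) : ℤ) = (I : ℤ) * N := by push_cast; ring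
      rcases hk with ⟨k0, k1⟩ | ⟨k0, k1⟩
      · have := hgood.spc k.toNat (Or.inl (by omega)) (by omega)
        rwa [Int.toNat_of_nonneg k0] at this
      · rw [← hz] at k0
        have := hgood.spc k.toNat (Or.inr (by omega)) (by omega)
        rwa [Int.toNat_of_nonneg (by omega)] at this)
    w1 w2
  rw [w2, w3, mul_one] at q
  unfold lamS
  have hsq : 0 ≤ Real.sqrt (2 * (M : ℝ) + 1) := Real.sqrt_nonneg _
  rw [q]
  exact mul_le_mul_of_nonneg_left hup hsq

end Pool.Agent.Work.MP_3574a2_pr.Gen
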