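import Pool.Agent.Work.MP_3574a2_pr.Gen.Stmts

/-!
# Lower bound of the distribution function for general entries
-/

set_option autoImplicit false

namespace Pool.Agent.Work.MP_3574a2_pr.Gen

open MeasureTheory ProbabilityTheory Set Polynomial Filter Topology
open Pool.Agent.Work.MP_3574a2_pr.Dil
open scoped ENNReal NNReal

universe u

namespace LoGen

/-- The coefficients of an average of the noise. -/
noncomputable def av (M : ℕ) {N : ℕ} (κ : Fin N → ℤ) (p : Fin N → ℝ) (a : ℕ) : ℝ :=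
  ∑ l, cf M (κ l) a * p l

lemma av_eq (h3 : StCoef) (M : ℕ) {N : ℕ} (κ : Fin N → ℤ) (p : Fin N → ℝ) (x : ℕ → ℝ) :
    ∑ l, gk M x (κ l) * p l = ∑ a : Fin (M + 1), av M κ p a * x a := by
  simp only [av, h3.1 M x, Finset.sum_mul]
  rw [Finset.sum_comm]
  refine Finset.sum_congr rfl fun a _ => Finset.sum_congr rfl fun l _ => by ring

lemma av_le (h3 : StCoef) (M : ℕ) {N : ℕ} (κ : Fin N → ℤ) (p : Fin N → ℝ) (h0 : ∀ l, 0 ≤ p l)
    (h1 : ∑ l, p l ≤ 1) (a : ℕ) : |av M κ p a| ≤ 2 / Real.sqrt (2 * M + 1) := by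
  have hc : 0 ≤ 2 / Real.sqrt (2 * (M : ℝ) + 1) := by positivity
  calc |av M κ p a| ≤ ∑ l, |cf M (κ l) a * p l| := Finset.abs_sum_le_sum_abs _ _
    _ ≤ ∑ l, 2 / Real.sqrt (2 * (M : ℝ) + 1) * p l := by
        refine Finset.sum_le_sum fun l _ => ?_
        rw [abs_mul, abs_of_nonneg (h0 l)]
        exact mul_le_mul_of_nonneg_right (h3.2.1 M (κ l) a) (h0 l)
    _ = 2 / Real.sqrt (2 * (M : ℝ) + 1) * ∑ l, p l := (Finset.mul_sum _ _ _).symm
    _ ≤ 2 / Real.sqrt (2 * (M : ℝ) + 1) * 1 := mul_le_mul_of_nonneg_left h1 hc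
    _ = _ := mul_one _

/-- The index set of the functionals. -/
abbrev JJ (I m1 m2 M : ℕ) : Type :=
  (Fin I × Fin m1) ⊕ ((Fin (I - 1) × Fin m2) ⊕ (Fin (M + 1) × Bool))

/-- The functionals. -/
noncomputable def LL (M N W I m1 m2 : ℕ) (p1 : Fin m1 → Fin N → ℝ)
    (p2 : Fin m2 → Fin (4 * W + 1) → ℝ) (x : ℕ → ℝ) : JJ I m1 m2 M → ℝ
  | Sum.inl (i, j) => ∑ l : Fin N, gk M x ((i : ℤ) * N + 1 + (l : ℤ)) * p1 j l
  | Sum.inr (Sum.inl (i, j)) =>
      ∑ l : Fin (4 * W + 1), gk M x (((i : ℕ) + 1 : ℤ) * N - 2 * W + (l : ℤ)) * p2 j l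
  | Sum.inr (Sum.inr (k, s)) => if s then gk M x (k : ℕ) else -gk M x (k : ℕ)

/-- The coefficients of the functionals. -/
noncomputable def CC (M N W I m1 m2 : ℕ) (p1 : Fin m1 → Fin N → ℝ)
    (p2 : Fin m2 → Fin (4 * W + 1) → ℝ) (a : ℕ) : JJ I m1 m2 M → ℝ
  | Sum.inl (i, j) => av M (fun l : Fin N => (i : ℤ) * N + 1 + (l : ℤ)) (p1 j) a
  | Sum.inr (Sum.inl (i, j)) =>
      av M (fun l : Fin (4 * W + 1) => ((i : ℕ) + 1 : ℤ) * N - 2 * W + (l : ℤ)) (p2 j) a
  | Sum.inr (Sum.inr (k, s)) => if s then cf M (k : ℕ) a else -cf M (k : ℕ) a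

open Classical in
/-- The thresholds. -/
noncomputable def UU (M N W I m1 m2 : ℕ) (G v : ℝ) : JJ I m1 m2 M → ℝ
  | Sum.inl _ => v
  | Sum.inr (Sum.inl _) => v
  | Sum.inr (Sum.inr (k, _)) => if ((k : ℕ) ≤ 2 * W ∨ I * N ≤ (k : ℕ) + 2 * W) then min G v else G

lemma LL_eq (h3 : StCoef) (M N W I m1 m2 : ℕ) (p1 : Fin m1 → Fin N → ℝ)
    (p2 : Fin m2 → Fin (4 * W + 1) → ℝ) (x : ℕ → ℝ) (j : JJ I m1 m2 M) :
    LL M N W I m1 m2 p1 p2 x j = ∑ a : Fin (M + 1), CC M N W I m1 m2 p1 p2 a j * x a := by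
  rcases j with ⟨i, j⟩ | ⟨i, j⟩ | ⟨k, s⟩
  · exact av_eq h3 M _ _ x
  · exact av_eq h3 M _ _ x
  · rcases s with _ | _
    · simp only [LL, CC, h3.1 M x, Bool.false_eq_true, if_false, neg_mul, Finset.sum_neg_distrib]
    · simp only [LL, CC, h3.1 M x, if_true]

lemma CC_le (h3 : StCoef) (M N W I m1 m2 : ℕ) (p1 : Fin m1 → Fin N → ℝ)
    (p2 : Fin m2 → Fin (4 * W + 1) → ℝ) (h10 : ∀ j l, 0 ≤ p1 j l) (h11 : ∀ j, ∑ l, p1 j l ≤ 1)
    (h20 : ∀ j l, 0 ≤ p2 j l) (h21 : ∀ j, ∑ l, p2 j l ≤ 1) (a : ℕ) (j : JJ I m1 m2 M) :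
    |CC M N W I m1 m2 p1 p2 a j| ≤ 2 / Real.sqrt (2 * M + 1) := by
  rcases j with ⟨i, j⟩ | ⟨i, j⟩ | ⟨k, s⟩
  · exact av_le h3 M _ _ (h10 j) (h11 j) a
  · exact av_le h3 M _ _ (h20 j) (h21 j) a
  · rcases s with _ | _
    · simp only [CC, Bool.false_eq_true, if_false, abs_neg]
      exact h3.2.1 M _ a
    · simp only [CC, if_true]
      exact h3.2.1 M _ a

lemma card_le (I m1 m2 M k N N' : ℕ) (hN : N' ≤ N) (h1 : m1 ≤ (k + 1) ^ N)
    (h2 : m2 ≤ (k + 1) ^ N') :
    (Fintype.card (JJ I m1 m2 M) : ℝ) ≤ 2 * I * ((k : ℝ) + 1) ^ N + 2 * (M + 1) := by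
  have h2' : m2 ≤ (k + 1) ^ N := h2.trans (Nat.pow_le_pow_right (Nat.succ_pos k) hN)
  have e : Fintype.card (JJ I m1 m2 M) = I * m1 + ((I - 1) * m2 + (M + 1) * 2) := by
    simp [JJ, Fintype.card_sum, Fintype.card_prod]
  have h : Fintype.card (JJ I m1 m2 M) ≤ 2 * I * (k + 1) ^ N + 2 * (M + 1) := by
    rw [e]
    have a1 : I * m1 ≤ I * (k + 1) ^ N := Nat.mul_le_mul_left _ h1
    have a2 : (I - 1) * m2 ≤ I * (k + 1) ^ N := Nat.mul_le_mul (Nat.sub_le _ _) h2'
    nlinarith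
  exact_mod_cast h

end LoGen

open LoGen in
theorem pr_LoGen (h1 : StTransfer) (h2 : StNet) (h3 : StCoef) (h4 : StJoint.{u}) (h5 : StGLaw)
    (h6 : StLoDet) (h7 : StGaussLo) (h8 : ClaimSpp) : StLoGen.{u} := by
  intro Ω mΩ P X μ q hP hX hind hlaw hq2 hq3 hμ n H W N I M k τ0 G K u β ε A hn hM hW hN hI hIN hA
    hτ0 hK hk hβ hε hεG hu hS1 hS2
  set τ : ℝ := τ0 + G / K with hτ
  have hk0 : (0 : ℝ) < k := by exact_mod_cast hk
  have hG0 : 0 ≤ G := hε.le.trans hεG
  have hNG : 0 ≤ N * G / k := by positivity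
  set v : ℝ := u - N * G / k with hv
  have hvu : v ≤ u := by rw [hv]; linarith
  have hu0 : 0 ≤ u := by linarith
  obtain ⟨m1, p1, hm1, hp1, hn1⟩ := h2 N k _ hS1 hk
  obtain ⟨m2, p2, hm2, hp2, hn2⟩ := h2 (4 * W + 1) k _ hS2 hk
  have h10 : ∀ j l, 0 ≤ p1 j l := fun j l => hS1.nonneg _ (hp1 j) l
  have h11 : ∀ j, ∑ l, p1 j l ≤ 1 := fun j => hS1.sum_le _ (hp1 j)
  have h20 : ∀ j l, 0 ≤ p2 j l := fun j l => hS2.nonneg _ (hp2 j) l
  have h21 : ∀ j, ∑ l, p2 j l ≤ 1 := fun j => hS2.sum_le _ (hp2 j)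
  -- Step 1: the functionals control the good event
  have good : ∀ x : ℕ → ℝ, (∀ j, LL M N W I m1 m2 p1 p2 x j ≤ UU M N W I m1 m2 G v j) →
      Good n H M W N I τ G u x := by
    intro x hx
    have bdd : ∀ k : ℕ, k ≤ M → |gk M x k| ≤ G := by
      intro k hk
      have e1 := hx (Sum.inr (Sum.inr (⟨k, Nat.lt_succ_of_le hk⟩, true)))
      have e2 := hx (Sum.inr (Sum.inr (⟨k, Nat.lt_succ_of_le hk⟩, false)))
      simp only [LL, UU, if_true, Bool.false_eq_true, if_false] at e1 e2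
      rw [abs_le]
      split_ifs at e1 e2
      · have := min_le_left G v
        constructor <;> linarith
      · constructor <;> linarith
    have bddZ : ∀ z : ℤ, 0 ≤ z → z ≤ M → |gk M x z| ≤ G := by
      intro z h0 h1
      obtain ⟨t, rfl⟩ := Int.eq_ofNat_of_zero_le h0
      exact bdd t (by exact_mod_cast h1)
    refine ⟨?_, ?_, ?_, bdd⟩
    · intro i hi
      have e := hn1 (fun l => gk M x ((i : ℤ) * N + 1 + (l : ℤ))) G v ?_ ?_
      · linarith
      · intro l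
        refine bddZ _ (by positivity) ?_
        have hl : ((l : ℕ) : ℤ) < N := by exact_mod_cast l.2
        have h1 : ((i : ℤ) + 1) * N ≤ I * N := by
          refine mul_le_mul_of_nonneg_right ?_ (by positivity)
          exact_mod_cast hi
        have h2 : (I : ℤ) * N ≤ M := by exact_mod_cast hIN
        nlinarith
      · intro j
        exact hx (Sum.inl (⟨i, hi⟩, j))
    · intro i hi hi1
      have e := hn2 (fun l => gk M x ((i : ℤ) * N - 2 * W + (l : ℤ))) G v ?_ ?_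
      · have h3 : (((4 * W + 1 : ℕ) : ℝ)) * G / k ≤ N * G / k := by
          have : ((4 * W + 1 : ℕ) : ℝ) ≤ N := by exact_mod_cast hN
          gcongr
        linarith
      · intro l
        have hl : ((l : ℕ) : ℤ) < 4 * W + 1 := by exact_mod_cast l.2
        have hN' : (4 * (W : ℤ) + 1) ≤ N := by exact_mod_cast hN
        have h1 : ((i : ℤ) + 1) * N ≤ I * N := by
          refine mul_le_mul_of_nonneg_right ?_ (by positivity)
          exact_mod_cast hi
        have h2 : (I : ℤ) * N ≤ M := by exact_mod_cast hIN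
        have h3 : (1 : ℤ) * N ≤ i * N := by
          refine mul_le_mul_of_nonneg_right ?_ (by positivity)
          exact_mod_cast hi1
        refine bddZ _ ?_ ?_
        · have : (0 : ℤ) ≤ ((l : ℕ) : ℤ) := by positivity
          linarith
        · linarith
      · intro j
        have hi' : i - 1 < I - 1 := by omega
        have e := hx (Sum.inr (Sum.inl (⟨i - 1, hi'⟩, j)))
        simp only [LL, UU] at e
        have ei : (((i - 1 : ℕ) : ℤ) + 1) = i := by omega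
        rw [ei] at e
        exact e
    · intro k hk hkM
      have e1 := hx (Sum.inr (Sum.inr (⟨k, Nat.lt_succ_of_le hkM⟩, true)))
      have e2 := hx (Sum.inr (Sum.inr (⟨k, Nat.lt_succ_of_le hkM⟩, false)))
      simp only [LL, UU, if_true, Bool.false_eq_true, if_false, if_pos hk] at e1 e2
      rw [abs_le]
      have := min_le_right G v
      constructor <;> linarith
  -- Step 2: comparison
  let c : JJ I m1 m2 M → Fin (M + 1) → ℝ := fun j a => CC M N W I m1 m2 p1 p2 (a : ℕ) j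
  have cmp := h1 (JJ I m1 m2 M) (M + 1) (gaussianReal 0 1) μ q (2 / Real.sqrt (2 * M + 1)) β ε c
    (fun j => UU M N W I m1 m2 G v j - ε) hq2 hq3 (h5 q hq2) hμ (by positivity)
    (fun j i => CC_le h3 M N W I m1 m2 p1 p2 h10 h11 h20 h21 i j) hβ hε
  simp only [sub_add_cancel] at cmp
  have hmeas : MeasurableSet {x : Fin (M + 1) → ℝ | ∀ j, ∑ i, c j i * x i ≤
      UU M N W I m1 m2 G v j} := by
    have : {x : Fin (M + 1) → ℝ | ∀ j, ∑ i, c j i * x i ≤ UU M N W I m1 m2 G v j} =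
        ⋂ j, {x : Fin (M + 1) → ℝ | ∑ i, c j i * x i ≤ UU M N W I m1 m2 G v j} := by
      ext x; simp
    rw [this]
    refine MeasurableSet.iInter fun j => measurableSet_le ?_ measurable_const
    fun_prop
  have hXm : Measurable (fun ω (i : Fin (M + 1)) => X i ω) :=
    measurable_pi_lambda _ fun i => hX i
  have hjoint : (Measure.pi fun _ : Fin (M + 1) => μ).real {x | ∀ j, ∑ i, c j i * x i ≤
      UU M N W I m1 m2 G v j} =
      P.real {ω | ∀ j, ∑ i : Fin (M + 1), c j i * X i ω ≤ UU M N W I m1 m2 G v j} := by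
    rw [← h4 Ω mΩ P X μ (M + 1) hP hX hind hlaw, map_measureReal_apply hXm hmeas]
    rfl
  have hfin : P.real {ω | ∀ j, ∑ i : Fin (M + 1), c j i * X i ω ≤ UU M N W I m1 m2 G v j} ≤
      P.real {ω | lamS n (fun k => X k ω) ≤
        Real.sqrt (2 * (M : ℝ) + 1) * (u + K * τ0 + 2 * G * τ)} := by
    refine measureReal_mono ?_ (measure_ne_top _ _)
    intro ω hω
    refine h6 n H W N I M τ0 G K u A (fun k => X k ω) hn hM hW hN hI hIN hA hτ0 hK hu0 ?_
    refine good _ fun j => ?_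
    rw [LL_eq h3]
    exact hω j
  -- Step 3: the Gaussian side
  have : IsFiniteMeasure (gm (M + 1)) := by unfold gm; infer_instance
  have hgauss : (gm (M + 1)).real {x | Good n H M W N I τ (G - ε) (u - (N * G / k + ε)) (ex x)} ≤
      (Measure.pi fun _ : Fin (M + 1) => gaussianReal 0 1).real {x | ∀ j, ∑ i, c j i * x i ≤
        UU M N W I m1 m2 G v j - ε} := by
    refine measureReal_mono ?_ (measure_ne_top (gm (M + 1)) _)
    intro x hx
    change Good n H M W N I τ (G - ε) (u - (N * G / k + ε)) (ex x) at hx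
    change ∀ j, ∑ i, c j i * x i ≤ UU M N W I m1 m2 G v j - ε
    intro j
    have e0 : ∑ i, c j i * x i = LL M N W I m1 m2 p1 p2 (ex x) j := by
      rw [LL_eq h3]
      refine Finset.sum_congr rfl fun a _ => ?_
      have : ex x a = x a := by
        unfold ex
        rw [dif_pos a.2]
      rw [this]
    rw [e0]
    rcases j with ⟨i, j⟩ | ⟨i, j⟩ | ⟨t, s⟩
    · simp only [LL, UU]
      have e1 := hx.blk i i.2
      have e2 := (h8 N _ hS1).2.2.1 (fun l => gk M (ex x) ((i : ℤ) * N + 1 + (l : ℤ))) _ (hp1 j)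
      rw [hv]
      linarith
    · simp only [LL, UU]
      have e1 := hx.crs (i + 1) (by omega) (by omega)
      have e2 := (h8 _ _ hS2).2.2.1
        (fun l => gk M (ex x) (((i : ℕ) + 1 : ℤ) * N - 2 * W + (l : ℤ))) _ (hp2 j)
      push_cast at e1
      rw [hv]
      linarith
    · have htM : (t : ℕ) ≤ M := Nat.lt_succ_iff.mp t.2
      have e1 := abs_le.mp (hx.bdd t htM)
      have key : |gk M (ex x) (t : ℕ)| ≤ UU M N W I m1 m2 G v (Sum.inr (Sum.inr (t, s))) - ε := by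
        simp only [UU]
        split_ifs with hs
        · have e2 := hx.spc t hs htM
          have e3 := hx.bdd t htM
          have : |gk M (ex x) (t : ℕ)| + ε ≤ min G v := by
            refine le_min (by linarith) ?_
            rw [hv]; linarith
          linarith
        · exact hx.bdd t htM
      have key' := abs_le.mp key
      rcases s with _ | _
      · simp only [LL, Bool.false_eq_true, if_false]
        linarith [key'.1]
      · simp only [LL, if_true]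
        exact key'.2
  have hG := h7 n H W N I M τ (G - ε) (u - (N * G / k + ε)) hn hM hW hN hI hIN (by linarith)
    (by linarith) hS1 hS2
  have hcard := card_le I m1 m2 M k N (4 * W + 1) hN hm1 hm2
  have herr : ((M + 1 : ℕ) : ℝ) * (6 * (β * (2 / Real.sqrt (2 * M + 1))) ^ q *
      (mq (gaussianReal 0 1) q + mq μ q)) +
      2 * (Fintype.card (JJ I m1 m2 M) : ℝ) * Real.exp (-(β * ε / 2)) ≤
      err M μ q β ε (2 * I * ((k : ℝ) + 1) ^ N + 2 * (M + 1)) := by
    unfold err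
    have e1 : ((M + 1 : ℕ) : ℝ) = (M : ℝ) + 1 := by push_cast; ring
    rw [e1, add_comm (mq (gaussianReal 0 1) q)]
    have := Real.exp_pos (-(β * ε / 2))
    gcongr
  linarith

end Pool.Agent.Work.MP_3574a2_pr.Gen
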