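import Pool.Agent.Work.MP_3574a2_pr.Gen.Stmts

/-!
# A finite net of a class of sub-probability vectors
-/

set_option autoImplicit false

namespace Pool.Agent.Work.MP_3574a2_pr.Gen

open MeasureTheory ProbabilityTheory Set Polynomial Filter Topology
open Pool.Agent.Work.MP_3574a2_pr.Dil
open scoped ENNReal NNReal

namespace Net

/-- the cell of a vector -/
noncomputable def cell (N k : ℕ) (p : Fin N → ℝ) : Fin N → Fin (k + 1) :=
  fun i => ⟨min ⌊(k : ℝ) * p i⌋₊ k, by omega⟩

lemma close {N k : ℕ} {S : Set (Fin N → ℝ)} (hS : Simp S) (hk : 1 ≤ k) {p q : Fin N → ℝ}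
    (hp : p ∈ S) (hq : q ∈ S) (h : cell N k p = cell N k q) (i : Fin N) :
    |q i - p i| ≤ 1 / k := by
  have hk0 : (0 : ℝ) < k := by exact_mod_cast hk
  have h1 : ∀ r ∈ S, r i ≤ 1 := fun r hr =>
    (Finset.single_le_sum (fun j _ => hS.nonneg r hr j) (Finset.mem_univ i)).trans
      (hS.sum_le r hr)
  have h2 : ∀ r ∈ S, ⌊(k : ℝ) * r i⌋₊ ≤ k := by
    intro r hr
    have h3 : (k : ℝ) * r i ≤ k := by nlinarith [h1 r hr]
    exact Nat.floor_le_of_le h3
  have h4 : min ⌊(k : ℝ) * p i⌋₊ k = min ⌊(k : ℝ) * q i⌋₊ k := by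
    have := congrFun h i
    exact congrArg Fin.val this
  rw [min_eq_left (h2 p hp), min_eq_left (h2 q hq)] at h4
  have h5 := Nat.floor_le (mul_nonneg hk0.le (hS.nonneg p hp i))
  have h6 := Nat.floor_le (mul_nonneg hk0.le (hS.nonneg q hq i))
  have h7 := Nat.lt_floor_add_one ((k : ℝ) * p i)
  have h8 := Nat.lt_floor_add_one ((k : ℝ) * q i)
  rw [h4] at h5 h7
  rw [abs_le]
  constructor
  · rw [neg_le, neg_sub, le_div_iff₀ hk0]
    nlinarith
  · rw [le_div_iff₀ hk0]
    nlinarith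

end Net

open Net in
theorem pr_Net : StNet := by
  classical
  intro N k S hS hk
  have hk0 : (0 : ℝ) < k := by exact_mod_cast hk
  have hrep : ∀ c : {c : Fin N → Fin (k + 1) // c ∈ cell N k '' S},
      ∃ p ∈ S, cell N k p = c.1 := fun c => c.2
  choose rep hrepS hrepc using hrep
  have hcard : Fintype.card {c : Fin N → Fin (k + 1) // c ∈ cell N k '' S} ≤ (k + 1) ^ N := by
    calc _ ≤ Fintype.card (Fin N → Fin (k + 1)) := Fintype.card_subtype_le _
      _ = (k + 1) ^ N := by simp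
  refine ⟨Fintype.card {c : Fin N → Fin (k + 1) // c ∈ cell N k '' S},
    fun j => rep ((Fintype.equivFin _).symm j), hcard, fun j => hrepS _, ?_⟩
  intro g G u hg hu
  have hne : ((fun p => ∑ i, g i * p i) '' S).Nonempty := hS.ne.image _
  refine csSup_le hne ?_
  rintro _ ⟨q, hq, rfl⟩
  obtain ⟨c, hc⟩ : ∃ c : {c : Fin N → Fin (k + 1) // c ∈ cell N k '' S},
      c = ⟨cell N k q, q, hq, rfl⟩ := ⟨_, rfl⟩
  have h1 := hu (Fintype.equivFin _ c)
  beta_reduce at h1
  rw [Equiv.symm_apply_apply] at h1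
  have h2 : ∀ i, |q i - rep c i| ≤ 1 / k := fun i =>
    close hS hk (hrepS c) hq (by rw [hrepc, hc]) i
  have h3 : ∀ i, g i * q i ≤ g i * rep c i + G / k := by
    intro i
    have h4 : g i * (q i - rep c i) ≤ G / k := by
      calc g i * (q i - rep c i) ≤ |g i * (q i - rep c i)| := le_abs_self _
        _ = |g i| * |q i - rep c i| := abs_mul _ _
        _ ≤ G * (1 / k) := mul_le_mul (hg i) (h2 i) (abs_nonneg _)
            ((abs_nonneg _).trans (hg i))
        _ = G / k := by ring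
    linarith
  show ∑ i, g i * q i ≤ _
  calc ∑ i, g i * q i ≤ ∑ i, (g i * rep c i + G / k) := Finset.sum_le_sum fun i _ => h3 i
    _ = ∑ i, g i * rep c i + N * (G / k) := by
        rw [Finset.sum_add_distrib, Finset.sum_const, Finset.card_univ, Fintype.card_fin,
          nsmul_eq_mul]
    _ ≤ u + N * G / k := by
        rw [mul_div_assoc]
        linarith

end Pool.Agent.Work.MP_3574a2_pr.Gen
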