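import Mathlib
import Pool.Agent.Work.MP_3574a2_pr.Gen.Stmts

/-!
# Lindeberg replacement for product measures
-/

set_option autoImplicit false

namespace Pool.Agent.Work.MP_3574a2_pr.Gen

open MeasureTheory ProbabilityTheory Set Filter Topology
open scoped ENNReal NNReal

namespace Swap

/-- the integral of the remainder of a quadratic expansion -/
theorem inner {μ : Measure ℝ} {q K : ℝ} (h : Law μ q) {g : ℝ → ℝ} (hg : Measurable g)
    (hb : ∀ t, |g t| ≤ 1) {a0 a1 a2 : ℝ}
    (ha : ∀ t : ℝ, |g t - (a0 + a1 * t + a2 * t ^ 2)| ≤ K * |t| ^ q) :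
    |∫ t, g t ∂μ - (a0 + a2)| ≤ K * mq μ q := by
  have := h.prob
  have hi1 : Integrable (fun t : ℝ => t) μ := by
    have h2 : MemLp (fun t : ℝ => t) 2 μ := by
      exact (memLp_two_iff_integrable_sq
        (measurable_id.aestronglyMeasurable : AEStronglyMeasurable (fun t : ℝ => t) μ)).2 h.int2
    exact h2.integrable (by norm_num)
  have hig : Integrable g μ := Integrable.of_bound hg.aestronglyMeasurable 1
    (Filter.Eventually.of_forall fun t => by rw [Real.norm_eq_abs]; exact hb t)
  have hip : Integrable (fun t : ℝ => a0 + a1 * t + a2 * t ^ 2) μ :=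
    ((integrable_const a0).add (hi1.const_mul a1)).add (h.int2.const_mul a2)
  have e1 : ∫ t, (a0 + a1 * t + a2 * t ^ 2) ∂μ = a0 + a2 := by
    have e2 : Integrable (fun t : ℝ => a0 + a1 * t) μ :=
      (integrable_const a0).add (hi1.const_mul a1)
    rw [integral_add e2 (h.int2.const_mul a2), integral_add (integrable_const a0)
      (hi1.const_mul a1), integral_const_mul, integral_const_mul, h.mean, h.var]
    simp
  rw [← e1, ← integral_sub hig hip, mq, ← integral_const_mul]
  have e3 : Integrable (fun t : ℝ => K * |t| ^ q) μ := h.intq.const_mul K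
  rw [← Real.norm_eq_abs]
  exact norm_integral_le_of_norm_le e3 (Filter.Eventually.of_forall fun t => by
    rw [Real.norm_eq_abs]; exact ha t)

/-- the integral over a product, one coordinate first -/
theorem split {n : ℕ} (π : Fin (n + 1) → Measure ℝ) [∀ i, IsProbabilityMeasure (π i)]
    (i : Fin (n + 1)) {f : (Fin (n + 1) → ℝ) → ℝ} (hf : Measurable f) (hb : ∀ x, |f x| ≤ 1) :
    ∫ x, f x ∂(Measure.pi π) =
      ∫ y, ∫ t, f (i.insertNth t y) ∂(π i) ∂(Measure.pi fun j => π (i.succAbove j)) := by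
  have h1 := (measurePreserving_piFinSuccAbove π i).symm
  rw [← h1.integral_comp']
  simp_rw [MeasurableEquiv.piFinSuccAbove_symm_apply, Fin.insertNthEquiv]
  have hm : Measurable fun p : ℝ × (Fin n → ℝ) =>
      f (i.insertNth (α := fun _ => ℝ) p.1 p.2) := by
    refine hf.comp ?_
    exact (MeasurableEquiv.piFinSuccAbove (fun _ => ℝ) i).symm.measurable
  have hi : Integrable (fun p : ℝ × (Fin n → ℝ) =>
      f (i.insertNth (α := fun _ => ℝ) p.1 p.2))
      ((π i).prod (Measure.pi fun j => π (i.succAbove j))) :=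
    Integrable.of_bound hm.aestronglyMeasurable 1
      (Filter.Eventually.of_forall fun t => by rw [Real.norm_eq_abs]; exact hb _)
  exact integral_prod_symm _ hi

/-- change of one coordinate -/
theorem one {n : ℕ} (π π' : Fin (n + 1) → Measure ℝ) [∀ i, IsProbabilityMeasure (π i)]
    [∀ i, IsProbabilityMeasure (π' i)] (i : Fin (n + 1))
    (hπ : ∀ j, π (i.succAbove j) = π' (i.succAbove j)) {q K : ℝ}
    (h : Law (π i) q) (h' : Law (π' i) q)
    {f : (Fin (n + 1) → ℝ) → ℝ} (hf : Measurable f) (hb : ∀ x, |f x| ≤ 1)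
    (ha : ∀ (x : Fin (n + 1) → ℝ), ∃ a0 a1 a2 : ℝ, ∀ t : ℝ,
      |f (Function.update x i t) - (a0 + a1 * t + a2 * t ^ 2)| ≤ K * |t| ^ q) :
    |∫ x, f x ∂(Measure.pi π) - ∫ x, f x ∂(Measure.pi π')| ≤ K * (mq (π i) q + mq (π' i) q) := by
  rw [split π i hf hb, split π' i hf hb]
  have e0 : (fun j => π (i.succAbove j)) = fun j => π' (i.succAbove j) := funext hπ
  rw [e0]
  set ρ : Measure (Fin n → ℝ) := Measure.pi fun j => π' (i.succAbove j) with hρ
  have hmp : Measurable fun p : (Fin n → ℝ) × ℝ =>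
      f (i.insertNth (α := fun _ => ℝ) p.2 p.1) := by
    have h1 : Measurable fun p : ℝ × (Fin n → ℝ) =>
        f (i.insertNth (α := fun _ => ℝ) p.1 p.2) := by
      refine hf.comp ?_
      exact (MeasurableEquiv.piFinSuccAbove (fun _ => ℝ) i).symm.measurable
    exact h1.comp measurable_swap
  have hmi : ∀ (κ : Measure ℝ) [IsProbabilityMeasure κ],
      Integrable (fun y => ∫ t, f (i.insertNth (α := fun _ => ℝ) t y) ∂κ) ρ := by
    intro κ _
    refine Integrable.of_bound (hmp.stronglyMeasurable.integral_prod_right'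
      (ν := κ)).aestronglyMeasurable 1 (Filter.Eventually.of_forall fun y => ?_)
    have h1 := norm_integral_le_of_norm_le_const (μ := κ) (C := 1)
      (f := fun t => f (i.insertNth (α := fun _ => ℝ) t y))
      (Filter.Eventually.of_forall fun t => by rw [Real.norm_eq_abs]; exact hb _)
    simpa using h1
  rw [← integral_sub (hmi _) (hmi _)]
  have key : ∀ y, |∫ t, f (i.insertNth (α := fun _ => ℝ) t y) ∂(π i) -
      ∫ t, f (i.insertNth (α := fun _ => ℝ) t y) ∂(π' i)| ≤
      K * (mq (π i) q + mq (π' i) q) := by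
    intro y
    obtain ⟨a0, a1, a2, h3⟩ := ha (i.insertNth (α := fun _ => ℝ) 0 y)
    have h4 : ∀ t : ℝ, |f (i.insertNth (α := fun _ => ℝ) t y) - (a0 + a1 * t + a2 * t ^ 2)| ≤
        K * |t| ^ q := by
      intro t
      have := h3 t
      rwa [Fin.update_insertNth] at this
    have hm : Measurable fun t : ℝ => f (i.insertNth (α := fun _ => ℝ) t y) :=
      hmp.comp (measurable_const.prodMk measurable_id)
    have h5 := inner h hm (fun t => hb _) h4
    have h6 := inner h' hm (fun t => hb _) h4
    rw [abs_le] at h5 h6 ⊢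
    constructor <;> linarith [h5.1, h5.2, h6.1, h6.2]
  have h7 := norm_integral_le_of_norm_le_const (μ := ρ)
    (C := K * (mq (π i) q + mq (π' i) q))
    (f := fun y => ∫ t, f (i.insertNth (α := fun _ => ℝ) t y) ∂(π i) -
      ∫ t, f (i.insertNth (α := fun _ => ℝ) t y) ∂(π' i))
    (Filter.Eventually.of_forall fun y => by rw [Real.norm_eq_abs]; exact key y)
  simpa using h7

end Swap

theorem pr_Swap : StSwap := by
  intro n μ ν q K f hq hK hμ hν hf hb ha
  have := hμ.prob
  have := hν.prob
  set ρ : ℕ → Fin n → Measure ℝ := fun k l => if (l : ℕ) < k then ν else μ with hρ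
  have hpr : ∀ k i, IsProbabilityMeasure (ρ k i) := by
    intro k i
    rw [hρ]
    dsimp only
    split_ifs <;> infer_instance
  have hstep : ∀ k < n, |∫ x, f x ∂(Measure.pi (ρ k)) - ∫ x, f x ∂(Measure.pi (ρ (k + 1)))| ≤
      K * (mq μ q + mq ν q) := by
    intro k hk
    obtain ⟨m, rfl⟩ : ∃ m, n = m + 1 := ⟨n - 1, by omega⟩
    set i : Fin (m + 1) := ⟨k, hk⟩ with hi
    have e1 : ρ k i = μ := by
      rw [hρ]
      simp [hi]
    have e2 : ρ (k + 1) i = ν := by
      rw [hρ]
      simp [hi]
    have h1 := Swap.one (ρ k) (ρ (k + 1)) i (fun j => by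
      have hne : (i.succAbove j : Fin (m + 1)) ≠ i := Fin.succAbove_ne i j
      have hne' : ((i.succAbove j : Fin (m + 1)) : ℕ) ≠ k := fun h => hne (Fin.ext h)
      rw [hρ]
      dsimp only
      by_cases h : ((i.succAbove j : Fin (m + 1)) : ℕ) < k
      · rw [if_pos h, if_pos (by omega)]
      · rw [if_neg h, if_neg (by omega)]) (q := q) (K := K) (by rw [e1]; exact hμ)
      (by rw [e2]; exact hν) hf hb (fun x => ha x i)
    rw [e1, e2] at h1
    exact h1
  have hall : ∀ k ≤ n, |∫ x, f x ∂(Measure.pi (ρ 0)) - ∫ x, f x ∂(Measure.pi (ρ k))| ≤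
      k * (K * (mq μ q + mq ν q)) := by
    intro k
    induction k with
    | zero => intro _; simp
    | succ k ih =>
      intro hk
      have h1 := ih (by omega)
      have h2 := hstep k (by omega)
      have h3 := abs_sub_le (∫ x, f x ∂(Measure.pi (ρ 0))) (∫ x, f x ∂(Measure.pi (ρ k)))
        (∫ x, f x ∂(Measure.pi (ρ (k + 1))))
      push_cast
      linarith
  have h0 : ρ 0 = fun _ => μ := by
    funext l
    rw [hρ]
    simp
  have hn : ρ n = fun _ => ν := by
    funext l
    rw [hρ]
    simp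
  have := hall n le_rfl
  rw [h0, hn] at this
  exact this

end Pool.Agent.Work.MP_3574a2_pr.Gen
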