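import Pool.Agent.Work.MP_3574a2_pr.Gen.Stmts
import Mathlib

set_option autoImplicit false

namespace Pool.Agent.Work.MP_3574a2_pr.Gen

open MeasureTheory ProbabilityTheory Set Polynomial Filter Topology
open Pool.Agent.Work.MP_3574a2_pr.Dil
open scoped ENNReal NNReal

namespace Taylor

theorem mvt (g g' : ℝ → ℝ) (C : ℝ) (k : ℕ) (hC : 0 ≤ C) (hd : ∀ s, HasDerivAt g (g' s) s)
    (h0 : g 0 = 0) (hb : ∀ s, |g' s| ≤ C * |s| ^ k) (t : ℝ) : |g t| ≤ C * |t| ^ (k + 1) := by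
  have h := Convex.norm_image_sub_le_of_norm_hasDerivWithin_le
    (f := g) (f' := g') (s := Metric.closedBall (0 : ℝ) |t|) (C := C * |t| ^ k) (x := 0) (y := t)
    (fun x _ => (hd x).hasDerivWithinAt) (fun x hx => ?_) (convex_closedBall _ _)
    (by simp) (by simp)
  · rw [h0, sub_zero, sub_zero, Real.norm_eq_abs, Real.norm_eq_abs] at h
    rw [pow_succ, ← mul_assoc]
    exact h
  · rw [mem_closedBall_zero_iff, Real.norm_eq_abs] at hx
    rw [Real.norm_eq_abs]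
    refine (hb x).trans ?_
    exact mul_le_mul_of_nonneg_left (pow_le_pow_left₀ (abs_nonneg _) hx _) hC

theorem exp2 (z : ℝ) (hz : 0 ≤ z) : (z ^ 2 + z) * Real.exp (-z) ≤ 2 := by
  have h := Real.sum_le_exp_of_nonneg hz 3
  simp only [Finset.sum_range_succ, Finset.sum_range_zero] at h
  norm_num [Nat.factorial] at h
  rw [Real.exp_neg, ← div_eq_mul_inv, div_le_iff₀ (Real.exp_pos z)]
  nlinarith

theorem exp3 (z : ℝ) (hz : 0 ≤ z) : (z ^ 3 + 3 * z ^ 2 + z) * Real.exp (-z) ≤ 6 := by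
  have h := Real.sum_le_exp_of_nonneg hz 4
  simp only [Finset.sum_range_succ, Finset.sum_range_zero] at h
  norm_num [Nat.factorial] at h
  rw [Real.exp_neg, ← div_eq_mul_inv, div_le_iff₀ (Real.exp_pos z)]
  nlinarith

theorem min_pow (y q R : ℝ) (hy : 0 ≤ y) (h2 : 2 ≤ q) (h3 : q ≤ 3) (hR2 : R ≤ 6 * y ^ 2)
    (hR3 : R ≤ 6 * y ^ 3) : R ≤ 6 * y ^ q := by
  rcases eq_or_lt_of_le hy with h0 | hpos
  · rw [← h0, Real.zero_rpow (by linarith)]
    rw [← h0] at hR2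
    simpa using hR2
  · rcases le_total y 1 with h1 | h1
    · refine hR3.trans (mul_le_mul_of_nonneg_left ?_ (by norm_num))
      have := Real.rpow_le_rpow_of_exponent_ge hpos h1 h3
      rw [show (3 : ℝ) = ((3 : ℕ) : ℝ) by norm_num, Real.rpow_natCast] at this
      exact this
    · refine hR2.trans (mul_le_mul_of_nonneg_left ?_ (by norm_num))
      have := Real.rpow_le_rpow_of_exponent_le h1 h2
      rw [show (2 : ℝ) = ((2 : ℕ) : ℝ) by norm_num, Real.rpow_natCast] at this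
      exact this

section

variable {J : Type} [Fintype J] (A b : J → ℝ)

/-- the derivatives of the exponent -/
noncomputable def Z (i : ℕ) (t : ℝ) : ℝ := ∑ j, A j * b j ^ i * Real.exp (b j * t)

theorem dZ (i : ℕ) (t : ℝ) : HasDerivAt (Z A b i) (Z A b (i + 1) t) t := by
  have h : ∀ j ∈ (Finset.univ : Finset J), HasDerivAt
      (fun t => A j * b j ^ i * Real.exp (b j * t)) (A j * b j ^ (i + 1) * Real.exp (b j * t)) t := by
    intro j _
    have h1 : HasDerivAt (fun t => b j * t) (b j) t := by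
      simpa using (hasDerivAt_id t).const_mul (b j)
    have h2 := (h1.exp).const_mul (A j * b j ^ i)
    refine h2.congr_deriv ?_
    ring
  exact HasDerivAt.fun_sum h

theorem Z0_nonneg (hA : ∀ j, 0 ≤ A j) (t : ℝ) : 0 ≤ Z A b 0 t :=
  Finset.sum_nonneg fun j _ => by
    rw [pow_zero, mul_one]
    exact mul_nonneg (hA j) (Real.exp_pos _).le

theorem Z_le (hA : ∀ j, 0 ≤ A j) {B : ℝ} (hb : ∀ j, |b j| ≤ B) (i : ℕ) (t : ℝ) :
    |Z A b i t| ≤ B ^ i * Z A b 0 t := by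
  unfold Z
  refine (Finset.abs_sum_le_sum_abs _ _).trans ?_
  rw [Finset.mul_sum]
  refine Finset.sum_le_sum fun j _ => ?_
  rw [abs_mul, abs_mul, abs_of_nonneg (hA j), abs_of_pos (Real.exp_pos _), abs_pow, pow_zero,
    mul_one]
  have h1 : |b j| ^ i ≤ B ^ i := pow_le_pow_left₀ (abs_nonneg _) (hb j) _
  have h2 : 0 ≤ A j * Real.exp (b j * t) := mul_nonneg (hA j) (Real.exp_pos _).le
  calc A j * |b j| ^ i * Real.exp (b j * t) = |b j| ^ i * (A j * Real.exp (b j * t)) := by ring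
    _ ≤ B ^ i * (A j * Real.exp (b j * t)) := mul_le_mul_of_nonneg_right h1 h2

end

end Taylor

open Taylor in
theorem pr_Taylor : StTaylor := by
  intro J _ A b B q hA hb hB h2q h3q
  have dZ0 := dZ A b 0
  have dZ1 := dZ A b 1
  have dZ2 := dZ A b 2
  set Z0 := Z A b 0 with hZ0
  set Z1 := Z A b 1 with hZ1
  set Z2 := Z A b 2 with hZ2
  set Z3 := Z A b 3 with hZ3
  have n0 : ∀ t, 0 ≤ Z0 t := Z0_nonneg A b hA
  have l1 : ∀ t, |Z1 t| ≤ B * Z0 t := fun t => by simpa using Z_le A b hA hb 1 t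
  have l2 : ∀ t, |Z2 t| ≤ B ^ 2 * Z0 t := fun t => Z_le A b hA hb 2 t
  have l3 : ∀ t, |Z3 t| ≤ B ^ 3 * Z0 t := fun t => Z_le A b hA hb 3 t
  have de : ∀ t, HasDerivAt (fun t => Real.exp (-Z0 t)) (-Z1 t * Real.exp (-Z0 t)) t := by
    intro t
    refine ((dZ0 t).neg.exp).congr_deriv ?_
    rw [mul_comm]; rfl
  have d1 : ∀ t, HasDerivAt (fun t => -Z1 t * Real.exp (-Z0 t))
      ((Z1 t ^ 2 - Z2 t) * Real.exp (-Z0 t)) t := by
    intro t
    refine ((dZ1 t).neg.mul (de t)).congr_deriv ?_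
    simp only [Pi.neg_apply]
    ring
  have d2 : ∀ t, HasDerivAt (fun t => (Z1 t ^ 2 - Z2 t) * Real.exp (-Z0 t))
      ((-Z1 t ^ 3 + 3 * Z1 t * Z2 t - Z3 t) * Real.exp (-Z0 t)) t := by
    intro t
    refine ((((dZ1 t).pow 2).sub (dZ2 t)).mul (de t)).congr_deriv ?_
    simp only [Pi.sub_apply, Pi.pow_apply]
    push_cast
    ring
  have b2 : ∀ t, |(Z1 t ^ 2 - Z2 t) * Real.exp (-Z0 t)| ≤ 2 * B ^ 2 := by
    intro t
    rw [abs_mul, abs_of_pos (Real.exp_pos _)]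
    have h1 : |Z1 t ^ 2 - Z2 t| ≤ B ^ 2 * (Z0 t ^ 2 + Z0 t) := by
      have h3 : |Z1 t ^ 2| ≤ (B * Z0 t) ^ 2 := by
        rw [abs_pow]
        exact pow_le_pow_left₀ (abs_nonneg _) (l1 t) 2
      calc |Z1 t ^ 2 - Z2 t| ≤ |Z1 t ^ 2| + |Z2 t| := abs_sub _ _
        _ ≤ (B * Z0 t) ^ 2 + B ^ 2 * Z0 t := add_le_add h3 (l2 t)
        _ = _ := by ring
    calc |Z1 t ^ 2 - Z2 t| * Real.exp (-Z0 t) ≤
        B ^ 2 * (Z0 t ^ 2 + Z0 t) * Real.exp (-Z0 t) :=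
          mul_le_mul_of_nonneg_right h1 (Real.exp_pos _).le
      _ = B ^ 2 * ((Z0 t ^ 2 + Z0 t) * Real.exp (-Z0 t)) := by ring
      _ ≤ B ^ 2 * 2 := mul_le_mul_of_nonneg_left (exp2 _ (n0 t)) (by positivity)
      _ = _ := by ring
  have b3 : ∀ t, |(-Z1 t ^ 3 + 3 * Z1 t * Z2 t - Z3 t) * Real.exp (-Z0 t)| ≤ 6 * B ^ 3 := by
    intro t
    rw [abs_mul, abs_of_pos (Real.exp_pos _)]
    have h1 : |-Z1 t ^ 3 + 3 * Z1 t * Z2 t - Z3 t| ≤
        B ^ 3 * (Z0 t ^ 3 + 3 * Z0 t ^ 2 + Z0 t) := by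
      have h3 : |-Z1 t ^ 3| ≤ (B * Z0 t) ^ 3 := by
        rw [abs_neg, abs_pow]
        exact pow_le_pow_left₀ (abs_nonneg _) (l1 t) 3
      have h4 : |3 * Z1 t * Z2 t| ≤ 3 * (B * Z0 t) * (B ^ 2 * Z0 t) := by
        rw [abs_mul, abs_mul, abs_of_pos (by norm_num : (0 : ℝ) < 3)]
        have := l1 t
        have := l2 t
        have := n0 t
        gcongr
      calc |-Z1 t ^ 3 + 3 * Z1 t * Z2 t - Z3 t| ≤ |-Z1 t ^ 3 + 3 * Z1 t * Z2 t| + |Z3 t| :=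
            abs_sub _ _
        _ ≤ |-Z1 t ^ 3| + |3 * Z1 t * Z2 t| + |Z3 t| := by
            have := abs_add_le (-Z1 t ^ 3) (3 * Z1 t * Z2 t)
            linarith
        _ ≤ (B * Z0 t) ^ 3 + 3 * (B * Z0 t) * (B ^ 2 * Z0 t) + B ^ 3 * Z0 t :=
            add_le_add (add_le_add h3 h4) (l3 t)
        _ = _ := by ring
    calc |-Z1 t ^ 3 + 3 * Z1 t * Z2 t - Z3 t| * Real.exp (-Z0 t) ≤
        B ^ 3 * (Z0 t ^ 3 + 3 * Z0 t ^ 2 + Z0 t) * Real.exp (-Z0 t) :=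
          mul_le_mul_of_nonneg_right h1 (Real.exp_pos _).le
      _ = B ^ 3 * ((Z0 t ^ 3 + 3 * Z0 t ^ 2 + Z0 t) * Real.exp (-Z0 t)) := by ring
      _ ≤ B ^ 3 * 6 := mul_le_mul_of_nonneg_left (exp3 _ (n0 t)) (by positivity)
      _ = _ := by ring
  -- the remainder
  set a2 : ℝ := (Z1 0 ^ 2 - Z2 0) * Real.exp (-Z0 0) with ha2
  set a1 : ℝ := -Z1 0 * Real.exp (-Z0 0) with ha1
  set a0 : ℝ := Real.exp (-Z0 0) with ha0
  have r2d : ∀ t, HasDerivAt (fun t => (Z1 t ^ 2 - Z2 t) * Real.exp (-Z0 t) - a2)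
      ((-Z1 t ^ 3 + 3 * Z1 t * Z2 t - Z3 t) * Real.exp (-Z0 t)) t := fun t =>
    (d2 t).sub_const a2
  have r1d : ∀ t, HasDerivAt (fun t => -Z1 t * Real.exp (-Z0 t) - a1 - a2 * t)
      ((Z1 t ^ 2 - Z2 t) * Real.exp (-Z0 t) - a2) t := by
    intro t
    have h1 : HasDerivAt (fun t : ℝ => a2 * t) a2 t := by
      simpa using (hasDerivAt_id t).const_mul a2
    exact ((d1 t).sub_const a1).sub h1
  have r0d : ∀ t, HasDerivAt (fun t => Real.exp (-Z0 t) - a0 - a1 * t - a2 / 2 * t ^ 2)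
      (-Z1 t * Real.exp (-Z0 t) - a1 - a2 * t) t := by
    intro t
    have h1 : HasDerivAt (fun t : ℝ => a1 * t) a1 t := by
      simpa using (hasDerivAt_id t).const_mul a1
    have h2 : HasDerivAt (fun t : ℝ => a2 / 2 * t ^ 2) (a2 * t) t := by
      refine ((hasDerivAt_pow 2 t).const_mul (a2 / 2)).congr_deriv ?_
      push_cast
      ring
    exact (((de t).sub_const a0).sub h1).sub h2
  have z2 : (fun t => (Z1 t ^ 2 - Z2 t) * Real.exp (-Z0 t) - a2) 0 = 0 := by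
    simp only [ha2, ha0]; ring
  have z1 : (fun t => -Z1 t * Real.exp (-Z0 t) - a1 - a2 * t) 0 = 0 := by
    simp only [ha1, ha0]; ring
  have z0 : (fun t => Real.exp (-Z0 t) - a0 - a1 * t - a2 / 2 * t ^ 2) 0 = 0 := by
    simp [ha0]
  refine ⟨a0, a1, a2 / 2, fun t => ?_⟩
  have hZt : Real.exp (-∑ j, A j * Real.exp (b j * t)) = Real.exp (-Z0 t) := by
    rw [hZ0]; simp [Z]
  rw [hZt]
  have heq : Real.exp (-Z0 t) - (a0 + a1 * t + a2 / 2 * t ^ 2) =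
      Real.exp (-Z0 t) - a0 - a1 * t - a2 / 2 * t ^ 2 := by ring
  rw [heq]
  have hq2 : |Real.exp (-Z0 t) - a0 - a1 * t - a2 / 2 * t ^ 2| ≤ 4 * B ^ 2 * |t| ^ 2 := by
    refine mvt _ _ (4 * B ^ 2) 1 (by positivity) r0d z0 (fun s => ?_) t
    refine mvt _ _ (4 * B ^ 2) 0 (by positivity) r1d z1 (fun s => ?_) s
    rw [pow_zero, mul_one]
    calc |(Z1 s ^ 2 - Z2 s) * Real.exp (-Z0 s) - a2| ≤
        |(Z1 s ^ 2 - Z2 s) * Real.exp (-Z0 s)| + |a2| := abs_sub _ _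
      _ ≤ 2 * B ^ 2 + 2 * B ^ 2 := add_le_add (b2 s) (b2 0)
      _ = _ := by ring
  have hq3 : |Real.exp (-Z0 t) - a0 - a1 * t - a2 / 2 * t ^ 2| ≤ 6 * B ^ 3 * |t| ^ 3 := by
    refine mvt _ _ (6 * B ^ 3) 2 (by positivity) r0d z0 (fun s => ?_) t
    refine mvt _ _ (6 * B ^ 3) 1 (by positivity) r1d z1 (fun s => ?_) s
    refine mvt _ _ (6 * B ^ 3) 0 (by positivity) r2d z2 (fun s => ?_) s
    rw [pow_zero, mul_one]
    exact b3 s
  refine min_pow (B * |t|) q _ (by positivity) h2q h3q ?_ ?_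
  · have : 0 ≤ B ^ 2 * |t| ^ 2 := by positivity
    rw [mul_pow]
    linarith
  · rw [mul_pow]
    linarith

end Pool.Agent.Work.MP_3574a2_pr.Gen
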