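import Pool.Agent.Work.MP_3574a2_pr.Gen.Stmts

/-!
# Comparison of the two laws for finitely many linear functionals
-/

set_option autoImplicit false

namespace Pool.Agent.Work.MP_3574a2_pr.Gen

open MeasureTheory ProbabilityTheory Set Polynomial Filter Topology
open Pool.Agent.Work.MP_3574a2_pr.Dil
open scoped ENNReal NNReal

namespace Transfer

/-- the test function -/
noncomputable def tf {J : Type} [Fintype J] {n : ℕ} (β ε : ℝ) (c : J → Fin n → ℝ) (u : J → ℝ)
    (x : Fin n → ℝ) : ℝ :=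
  Real.exp (-∑ j, Real.exp (β * (∑ i, c j i * x i - (u j + ε / 2))))

lemma tf_meas {J : Type} [Fintype J] {n : ℕ} (β ε : ℝ) (c : J → Fin n → ℝ) (u : J → ℝ) :
    Measurable (tf β ε c u) := by
  unfold tf
  fun_prop

lemma tf_pos {J : Type} [Fintype J] {n : ℕ} (β ε : ℝ) (c : J → Fin n → ℝ) (u : J → ℝ)
    (x : Fin n → ℝ) : 0 < tf β ε c u x := Real.exp_pos _

lemma tf_le_one {J : Type} [Fintype J] {n : ℕ} (β ε : ℝ) (c : J → Fin n → ℝ) (u : J → ℝ)
    (x : Fin n → ℝ) : tf β ε c u x ≤ 1 := by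
  unfold tf
  rw [Real.exp_le_one_iff, neg_nonpos]
  exact Finset.sum_nonneg (fun j _ => (Real.exp_pos _).le)

lemma tf_int {J : Type} [Fintype J] {n : ℕ} (β ε : ℝ) (c : J → Fin n → ℝ) (u : J → ℝ)
    (P : Measure (Fin n → ℝ)) [IsProbabilityMeasure P] : Integrable (tf β ε c u) P := by
  refine Integrable.of_bound (tf_meas β ε c u).aestronglyMeasurable 1 ?_
  refine Filter.Eventually.of_forall (fun x => ?_)
  rw [Real.norm_eq_abs, abs_of_pos (tf_pos β ε c u x)]
  exact tf_le_one β ε c u x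

lemma meas_set {J : Type} [Fintype J] {n : ℕ} (c : J → Fin n → ℝ) (u : J → ℝ) :
    MeasurableSet {x : Fin n → ℝ | ∀ j, ∑ i, c j i * x i ≤ u j} := by
  rw [Set.ofPred_forall]
  refine MeasurableSet.iInter (fun j => ?_)
  exact measurableSet_le (by fun_prop) measurable_const

/-- lower bound of the test function on the event -/
lemma tf_lower {J : Type} [Fintype J] {n : ℕ} (β ε : ℝ) (c : J → Fin n → ℝ) (u : J → ℝ)
    (hβ : 0 < β) (x : Fin n → ℝ) (hx : ∀ j, ∑ i, c j i * x i ≤ u j) :
    1 ≤ tf β ε c u x + Fintype.card J * Real.exp (-(β * ε / 2)) := by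
  unfold tf
  have h1 := Real.add_one_le_exp (-∑ j, Real.exp (β * (∑ i, c j i * x i - (u j + ε / 2))))
  have h2 : ∑ j, Real.exp (β * (∑ i, c j i * x i - (u j + ε / 2))) ≤
      ∑ _j : J, Real.exp (-(β * ε / 2)) := by
    refine Finset.sum_le_sum (fun j _ => Real.exp_le_exp.2 ?_)
    have := hx j
    nlinarith
  rw [Finset.sum_const, Finset.card_univ, nsmul_eq_mul] at h2
  linarith

/-- upper bound of the test function outside the event -/
lemma tf_upper {J : Type} [Fintype J] {n : ℕ} (β ε : ℝ) (c : J → Fin n → ℝ) (u : J → ℝ)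
    (hβ : 0 < β) (x : Fin n → ℝ) (hx : ¬ ∀ j, ∑ i, c j i * x i ≤ u j + ε) :
    tf β ε c u x ≤ Fintype.card J * Real.exp (-(β * ε / 2)) := by
  push Not at hx
  obtain ⟨j, hj⟩ := hx
  unfold tf
  have h1 : Real.exp (β * (∑ i, c j i * x i - (u j + ε / 2))) ≤
      ∑ j, Real.exp (β * (∑ i, c j i * x i - (u j + ε / 2))) :=
    Finset.single_le_sum (f := fun j => Real.exp (β * (∑ i, c j i * x i - (u j + ε / 2))))
      (fun j _ => (Real.exp_pos _).le) (Finset.mem_univ j)
  have h2 := Real.add_one_le_exp (β * (∑ i, c j i * x i - (u j + ε / 2)))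
  have h3 : β * ε / 2 ≤ β * (∑ i, c j i * x i - (u j + ε / 2)) := by nlinarith
  have h4 : Real.exp (-∑ j, Real.exp (β * (∑ i, c j i * x i - (u j + ε / 2)))) ≤
      Real.exp (-(β * ε / 2)) := Real.exp_le_exp.2 (by linarith)
  have h5 : (1 : ℝ) ≤ Fintype.card J := by
    have : 0 < Fintype.card J := Fintype.card_pos_iff.2 ⟨j⟩
    exact_mod_cast this
  have h6 : 0 < Real.exp (-(β * ε / 2)) := Real.exp_pos _
  nlinarith

lemma lin_update {n : ℕ} (c x : Fin n → ℝ) (i : Fin n) (t : ℝ) :
    ∑ k, c k * Function.update x i t k = ∑ k, c k * Function.update x i 0 k + c i * t := by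
  rw [← Finset.sum_erase_add _ _ (Finset.mem_univ i),
    ← Finset.sum_erase_add (s := Finset.univ) (f := fun k => c k * Function.update x i 0 k)
      (h := Finset.mem_univ i)]
  have h : ∑ k ∈ Finset.univ.erase i, c k * Function.update x i t k =
      ∑ k ∈ Finset.univ.erase i, c k * Function.update x i 0 k := by
    refine Finset.sum_congr rfl (fun k hk => ?_)
    rw [Function.update_of_ne (Finset.ne_of_mem_erase hk),
      Function.update_of_ne (Finset.ne_of_mem_erase hk)]
  rw [h, Function.update_self, Function.update_self]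
  ring

end Transfer

theorem pr_Transfer (h1 : StTaylor) (h2 : StSwap) : StTransfer := by
  intro J _ n μ ν q c0 β ε c u hq2 hq3 hμ hν hc0 hc hβ hε
  have hpμ := hμ.prob
  have hpν := hν.prob
  set f := Transfer.tf β ε c u with hf
  have hB : 0 ≤ β * c0 := by positivity
  have hswap := h2 n μ ν q (6 * (β * c0) ^ q) f hq2 (by positivity) hμ hν
    (Transfer.tf_meas β ε c u) (fun x => by
      rw [abs_of_pos (Transfer.tf_pos β ε c u x)]
      exact Transfer.tf_le_one β ε c u x) (by
    intro x i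
    obtain ⟨a0, a1, a2, ha⟩ := h1 J
      (fun j => Real.exp (β * (∑ k, c j k * Function.update x i 0 k - (u j + ε / 2))))
      (fun j => β * c j i) (β * c0) q (fun j => (Real.exp_pos _).le)
      (fun j => by
        rw [abs_mul, abs_of_pos hβ]
        exact mul_le_mul_of_nonneg_left (hc j i) hβ.le) hB hq2 hq3
    refine ⟨a0, a1, a2, fun t => ?_⟩
    have h3 := ha t
    rw [Real.mul_rpow hB (abs_nonneg t), ← mul_assoc] at h3
    have h4 : f (Function.update x i t) = Real.exp (-∑ j,
        Real.exp (β * (∑ k, c j k * Function.update x i 0 k - (u j + ε / 2))) *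
          Real.exp (β * c j i * t)) := by
      rw [hf]
      unfold Transfer.tf
      congr 2
      refine Finset.sum_congr rfl (fun j _ => ?_)
      rw [← Real.exp_add, Transfer.lin_update (c j) x i t]
      congr 1
      ring
    rw [h4]
    exact h3)
  set Pμ := Measure.pi fun _ : Fin n => μ with hPμ
  set Pν := Measure.pi fun _ : Fin n => ν with hPν
  set κ : ℝ := Fintype.card J * Real.exp (-(β * ε / 2)) with hκ
  have hκ0 : 0 ≤ κ := by positivity
  have e1 : Pμ.real {x | ∀ j, ∑ i, c j i * x i ≤ u j} ≤ ∫ x, f x ∂Pμ + κ := by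
    have hm := Transfer.meas_set c u
    have h3 : ∫ x, ({x : Fin n → ℝ | ∀ j, ∑ i, c j i * x i ≤ u j}.indicator (1 : (Fin n → ℝ) → ℝ)) x
        ∂Pμ = Pμ.real {x | ∀ j, ∑ i, c j i * x i ≤ u j} := integral_indicator_one hm
    rw [← h3]
    have h4 : ∫ x, f x ∂Pμ + κ = ∫ x, (f x + κ) ∂Pμ := by
      rw [integral_add (Transfer.tf_int β ε c u Pμ) (integrable_const _)]
      simp [hf]
    rw [h4]
    refine integral_mono ?_ ((Transfer.tf_int β ε c u Pμ).add (integrable_const _)) ?_
    · exact (integrable_indicator_iff hm).2 (integrable_const (1 : ℝ)).integrableOn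
    · intro x
      by_cases hx : x ∈ {x : Fin n → ℝ | ∀ j, ∑ i, c j i * x i ≤ u j}
      · rw [Set.indicator_of_mem hx]
        exact Transfer.tf_lower β ε c u hβ x hx
      · rw [Set.indicator_of_notMem hx]
        exact add_nonneg (Transfer.tf_pos β ε c u x).le hκ0
  have e2 : ∫ x, f x ∂Pν ≤ Pν.real {x | ∀ j, ∑ i, c j i * x i ≤ u j + ε} + κ := by
    have hm := Transfer.meas_set c (fun j => u j + ε)
    have h3 : ∫ x, ({x : Fin n → ℝ | ∀ j, ∑ i, c j i * x i ≤ u j + ε}.indicator
        (1 : (Fin n → ℝ) → ℝ)) x ∂Pν = Pν.real {x | ∀ j, ∑ i, c j i * x i ≤ u j + ε} :=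
      integral_indicator_one hm
    rw [← h3]
    have hi : Integrable ({x : Fin n → ℝ | ∀ j, ∑ i, c j i * x i ≤ u j + ε}.indicator
        (1 : (Fin n → ℝ) → ℝ)) Pν :=
      (integrable_indicator_iff hm).2 (integrable_const (1 : ℝ)).integrableOn
    have h4 : ∫ x, ({x : Fin n → ℝ | ∀ j, ∑ i, c j i * x i ≤ u j + ε}.indicator
        (1 : (Fin n → ℝ) → ℝ)) x ∂Pν + κ =
        ∫ x, (({x : Fin n → ℝ | ∀ j, ∑ i, c j i * x i ≤ u j + ε}.indicator
        (1 : (Fin n → ℝ) → ℝ)) x + κ) ∂Pν := by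
      rw [integral_add hi (integrable_const _)]
      simp
    rw [h4]
    refine integral_mono (Transfer.tf_int β ε c u Pν) (hi.add (integrable_const _)) ?_
    intro x
    by_cases hx : x ∈ {x : Fin n → ℝ | ∀ j, ∑ i, c j i * x i ≤ u j + ε}
    · show f x ≤ _ + κ
      rw [Set.indicator_of_mem hx]
      have := Transfer.tf_le_one β ε c u x
      simp only [Pi.one_apply]
      linarith
    · show f x ≤ _ + κ
      rw [Set.indicator_of_notMem hx, zero_add]
      exact Transfer.tf_upper β ε c u hβ x hx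
  have e3 := (abs_le.1 hswap).2
  have e4 : (2 : ℝ) * Fintype.card J * Real.exp (-(β * ε / 2)) = κ + κ := by rw [hκ]; ring
  rw [e4]
  linarith

end Pool.Agent.Work.MP_3574a2_pr.Gen
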