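import Pool.Agent.Work.MP_3574a2_pr.Gen.Stmts

/-!
# Gumbel limit for random Toeplitz matrices with general entries: the upper bound of the
distribution function
-/

set_option autoImplicit false

namespace Pool.Agent.Work.MP_3574a2_pr.Gen

open MeasureTheory ProbabilityTheory Set Polynomial Filter Topology
open Pool.Agent.Work.MP_3574a2_pr.Dil
open scoped ENNReal NNReal

universe u

namespace UpGen

/-- Polyhedra are measurable. -/
lemma meas_poly {J : Type} [Fintype J] {m : ℕ} (c : J → Fin m → ℝ) (v : J → ℝ) :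
    MeasurableSet {x : Fin m → ℝ | ∀ j, ∑ i, c j i * x i ≤ v j} := by
  have : {x : Fin m → ℝ | ∀ j, ∑ i, c j i * x i ≤ v j} =
      ⋂ j, {x : Fin m → ℝ | ∑ i, c j i * x i ≤ v j} := by
    ext x; simp
  rw [this]
  exact MeasurableSet.iInter fun j => measurableSet_le (by fun_prop) measurable_const

/-- The law of finitely many linear functionals. -/
lemma law_poly (h4 : StJoint.{u}) {Ω : Type u} [mΩ : MeasurableSpace Ω] (P : Measure Ω)
    (X : ℕ → Ω → ℝ) (μ : Measure ℝ) (hP : IsProbabilityMeasure P) (hX : ∀ k, Measurable (X k))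
    (hind : iIndepFun X P) (hlaw : ∀ k, P.map (X k) = μ) {J : Type} [Fintype J] {m : ℕ}
    (c : J → Fin m → ℝ) (v : J → ℝ) :
    P.real {ω | ∀ j, ∑ i : Fin m, c j i * X i ω ≤ v j} =
      (Measure.pi fun _ : Fin m => μ).real {x | ∀ j, ∑ i, c j i * x i ≤ v j} := by
  have hY : Measurable (fun ω (i : Fin m) => X i ω) := measurable_pi_lambda _ fun i => hX _
  rw [← h4 Ω mΩ P X μ m hP hX hind hlaw, map_measureReal_apply hY (meas_poly c v)]
  rfl

lemma ex_fin {m : ℕ} (x : Fin m → ℝ) (i : Fin m) : ex x i = x i := by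
  simp [ex]

/-- The coefficients of the functionals of the net. -/
noncomputable def cN (M N : ℕ) {m1 : ℕ} (p : Fin m1 → Fin N → ℝ) (I : ℕ) (a : Fin I × Fin m1)
    (b : Fin (M + 1)) : ℝ :=
  ∑ l : Fin N, cf M (((a.1 : ℕ) : ℤ) * N + 1 + ((l : ℕ) : ℤ)) b * p a.2 l

lemma cN_sum (h3 : StCoef) (M N : ℕ) {m1 : ℕ} (p : Fin m1 → Fin N → ℝ) (I : ℕ)
    (a : Fin I × Fin m1) (x : ℕ → ℝ) :
    ∑ b : Fin (M + 1), cN M N p I a b * x b =
      ∑ l : Fin N, gk M x (((a.1 : ℕ) : ℤ) * N + 1 + ((l : ℕ) : ℤ)) * p a.2 l := by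
  simp only [cN, Finset.sum_mul]
  rw [Finset.sum_comm]
  refine Finset.sum_congr rfl fun l _ => ?_
  rw [h3.1, Finset.sum_mul]
  refine Finset.sum_congr rfl fun b _ => ?_
  ring

lemma cN_le (h3 : StCoef) (M N : ℕ) {m1 : ℕ} (p : Fin m1 → Fin N → ℝ) (I : ℕ)
    {S : Set (Fin N → ℝ)} (hS : Simp S) (hp : ∀ j, p j ∈ S) (a : Fin I × Fin m1)
    (b : Fin (M + 1)) : |cN M N p I a b| ≤ 2 / Real.sqrt (2 * M + 1) := by
  have h0 : 0 ≤ 2 / Real.sqrt (2 * (M : ℝ) + 1) := by positivity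
  calc |cN M N p I a b|
      ≤ ∑ l : Fin N, |cf M (((a.1 : ℕ) : ℤ) * N + 1 + ((l : ℕ) : ℤ)) b * p a.2 l| :=
        Finset.abs_sum_le_sum_abs _ _
    _ ≤ ∑ l : Fin N, 2 / Real.sqrt (2 * M + 1) * p a.2 l := by
        refine Finset.sum_le_sum fun l _ => ?_
        rw [abs_mul, abs_of_nonneg (hS.nonneg _ (hp a.2) l)]
        exact mul_le_mul_of_nonneg_right (h3.2.1 _ _ _) (hS.nonneg _ (hp a.2) l)
    _ = 2 / Real.sqrt (2 * M + 1) * ∑ l, p a.2 l := by rw [Finset.mul_sum]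
    _ ≤ 2 / Real.sqrt (2 * M + 1) := mul_le_of_le_one_right h0 (hS.sum_le _ (hp a.2))

/-- The coefficients of the functionals `± g_k`. -/
noncomputable def cS (M : ℕ) (a : Fin (M + 1) × Bool) (b : Fin (M + 1)) : ℝ :=
  (if a.2 then 1 else -1) * cf M (((a.1 : ℕ) : ℤ)) b

lemma cS_sum (h3 : StCoef) (M : ℕ) (a : Fin (M + 1) × Bool) (x : ℕ → ℝ) :
    ∑ b : Fin (M + 1), cS M a b * x b =
      (if a.2 then 1 else -1) * gk M x (((a.1 : ℕ) : ℤ)) := by
  rw [h3.1, Finset.mul_sum]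
  refine Finset.sum_congr rfl fun b _ => ?_
  rw [cS]
  ring

lemma cS_le (h3 : StCoef) (M : ℕ) (a : Fin (M + 1) × Bool) (b : Fin (M + 1)) :
    |cS M a b| ≤ 2 / Real.sqrt (2 * M + 1) := by
  have h1 : |(if a.2 then (1 : ℝ) else -1)| = 1 := by
    split_ifs <;> simp
  rw [cS, abs_mul, h1, one_mul]
  exact h3.2.1 _ _ _

lemma cS_iff (h3 : StCoef) (M : ℕ) (x : ℕ → ℝ) (G : ℝ) :
    (∀ a : Fin (M + 1) × Bool, ∑ b : Fin (M + 1), cS M a b * x b ≤ G) ↔
      ∀ k : ℕ, k ≤ M → |gk M x k| ≤ G := by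
  constructor
  · intro h k hk
    have h1 := h (⟨k, by omega⟩, true)
    have h2 := h (⟨k, by omega⟩, false)
    rw [cS_sum h3] at h1 h2
    simp only [if_true, one_mul] at h1
    simp only [Bool.false_eq_true, if_false, neg_mul, one_mul] at h2
    exact abs_le.2 ⟨by linarith, h1⟩
  · rintro h ⟨a, s⟩
    rw [cS_sum h3]
    have h1 := abs_le.1 (h a (by omega))
    cases s
    · simp only [Bool.false_eq_true, if_false, neg_mul, one_mul]
      linarith [h1.1]
    · simp only [if_true, one_mul]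
      exact h1.2

/-- The transfer in terms of `err`. -/
lemma transfer_err (h1 : StTransfer) {J : Type} [Fintype J] (M : ℕ) (μ ν : Measure ℝ)
    (q β ε card : ℝ) (c : J → Fin (M + 1) → ℝ) (v w : J → ℝ) (hq2 : 2 ≤ q) (hq3 : q ≤ 3)
    (hμ : Law μ q) (hν : Law ν q) (hc : ∀ j i, |c j i| ≤ 2 / Real.sqrt (2 * M + 1)) (hβ : 0 < β)
    (hε : 0 < ε) (hw : ∀ j, v j + ε = w j) (hcard : (Fintype.card J : ℝ) ≤ card)
    (μ' : Measure ℝ) (hmq : mq μ q + mq ν q = mq μ' q + mq (gaussianReal 0 1) q) :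
    (Measure.pi fun _ : Fin (M + 1) => μ).real {x | ∀ j, ∑ i, c j i * x i ≤ v j} ≤
      (Measure.pi fun _ : Fin (M + 1) => ν).real {x | ∀ j, ∑ i, c j i * x i ≤ w j} +
        err M μ' q β ε card := by
  have h := h1 J (M + 1) μ ν q (2 / Real.sqrt (2 * M + 1)) β ε c v hq2 hq3 hμ hν (by positivity)
    hc hβ hε
  have e : {x : Fin (M + 1) → ℝ | ∀ j, ∑ i, c j i * x i ≤ v j + ε} =
      {x | ∀ j, ∑ i, c j i * x i ≤ w j} := by
    simp only [hw]
  rw [e] at h
  refine h.trans ?_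
  rw [err, hmq, add_assoc]
  refine add_le_add_right (add_le_add (le_of_eq (by push_cast; ring)) ?_) _
  exact mul_le_mul_of_nonneg_right (mul_le_mul_of_nonneg_left hcard (by norm_num))
    (Real.exp_pos _).le

end UpGen

theorem pr_UpGen (h1 : StTransfer) (h2 : StNet) (h3 : StCoef) (h4 : StJoint.{u}) (h5 : StGLaw)
    (h6 : StUpDet) (h7 : StGaussUp) (h8 : ClaimSpp) : StUpGen.{u} := by
  classical
  intro Ω mΩ P X μ q hP hX hind hlaw hq2 hq3 hμ n N I k τ G v β ε hn hIN hk hS hβ hε hεG hvG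
  have hdet := fun x => h6 n N I τ G v x hn hIN hS hvG
  obtain ⟨M, hM⟩ : ∃ M, n - 1 = M := ⟨_, rfl⟩
  have hnM : (n : ℝ) = M + 1 := by
    have : n = M + 1 := by omega
    rw [this]; push_cast; ring
  rw [hM] at hIN hS hdet ⊢
  have hG : 0 ≤ G := by linarith
  obtain ⟨m1, p, hm1, hpS, hnet⟩ := h2 N k _ hS hk
  set S := PP n (2 * M + 1) τ N with hSdef
  have hγ : Law (gaussianReal 0 1) q := h5 q hq2
  have hkpos : (0 : ℝ) < k := by exact_mod_cast hk
  -- the deterministic inclusion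
  set EA := {ω | ∀ a : Fin I × Fin m1, ∑ b : Fin (M + 1), UpGen.cN M N p I a b * X b ω ≤ v}
    with hEA
  set EB := {ω | ∀ a : Fin (M + 1) × Bool, ∑ b : Fin (M + 1), UpGen.cS M a b * X b ω ≤ G}
    with hEB
  have hsub : {ω | lamS n (fun k => X k ω) ≤ Real.sqrt (2 * (M : ℝ) + 1) * (v - G * τ)} ⊆
      EA ∪ EBᶜ := by
    intro ω hω
    by_cases hB : ω ∈ EB
    · left
      have hb := (UpGen.cS_iff h3 M (fun k => X k ω) G).1 hB
      have ha := hdet (fun k => X k ω) hb hω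
      intro a
      exact (le_of_eq (UpGen.cN_sum h3 M N p I a (fun k => X k ω))).trans
        (((h8 N S hS).2.2.1 _ _ (hpS a.2)).trans (ha a.1 a.1.2))
    · exact Or.inr hB
  have hEBm : MeasurableSet EB := by
    have hY : Measurable (fun ω (i : Fin (M + 1)) => X i ω) :=
      measurable_pi_lambda _ fun i => hX _
    exact hY (UpGen.meas_poly (UpGen.cS M) fun _ => G)
  -- part A
  have hA1 : P.real EA = (Measure.pi fun _ : Fin (M + 1) => μ).real
      {x | ∀ a, ∑ b, UpGen.cN M N p I a b * x b ≤ v} :=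
    UpGen.law_poly h4 P X μ hP hX hind hlaw (UpGen.cN M N p I) fun _ => v
  have hcardA : ((Fintype.card (Fin I × Fin m1) : ℕ) : ℝ) ≤
      2 * I * ((k : ℝ) + 1) ^ N + 2 * n := by
    have e1 : ((m1 : ℕ) : ℝ) ≤ ((k : ℝ) + 1) ^ N := by exact_mod_cast hm1
    rw [Fintype.card_prod, Fintype.card_fin, Fintype.card_fin]
    push_cast
    have e2 : (I : ℝ) * m1 ≤ I * ((k : ℝ) + 1) ^ N := by gcongr
    have e3 : 0 ≤ (I : ℝ) * ((k : ℝ) + 1) ^ N := by positivity
    have e4 : (0 : ℝ) ≤ n := by positivity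
    linarith
  have hA2 := UpGen.transfer_err h1 M μ (gaussianReal 0 1) q β ε
    (2 * I * ((k : ℝ) + 1) ^ N + 2 * n) (UpGen.cN M N p I) (fun _ => v) (fun _ => v + ε)
    hq2 hq3 hμ hγ (UpGen.cN_le h3 M N p I hS hpS) hβ hε (fun _ => rfl) hcardA μ rfl
  have hA3 : {x : Fin (M + 1) → ℝ | ∀ a, ∑ b, UpGen.cN M N p I a b * x b ≤ v + ε} ⊆
      {x | ∀ i < I, spp S (fun l => gk M (ex x) ((i : ℤ) * N + 1 + (l : ℤ))) ≤
        v + (N * G / k + ε)} ∪ {x | ∃ k : ℕ, k ≤ M ∧ G < |gk M (ex x) k|} := by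
    intro x hx
    by_cases hB : ∃ k : ℕ, k ≤ M ∧ G < |gk M (ex x) k|
    · exact Or.inr hB
    · left
      push Not at hB
      intro i hi
      have h9 := hnet (fun l => gk M (ex x) ((i : ℤ) * N + 1 + ((l : ℕ) : ℤ))) G (v + ε)
        (by
          intro l
          have e1 : i * N + 1 + (l : ℕ) ≤ M := by
            have h10 : (i + 1) * N ≤ I * N := Nat.mul_le_mul_right _ hi
            have h11 : (i + 1) * N = i * N + N := by ring
            have := l.2
            omega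
          have h12 := hB (i * N + 1 + (l : ℕ)) e1
          push_cast at h12
          exact h12)
        (by
          intro j
          have h12 := hx (⟨i, hi⟩, j)
          have h13 := UpGen.cN_sum h3 M N p I (⟨i, hi⟩, j) (ex x)
          simp only [UpGen.ex_fin] at h13
          rw [h13] at h12
          exact h12)
      show spp S (fun l => gk M (ex x) ((i : ℤ) * N + 1 + ((l : ℕ) : ℤ))) ≤ _
      linarith
  have hA4 : (gm (M + 1)).real
      {x : Fin (M + 1) → ℝ | ∀ a, ∑ b, UpGen.cN M N p I a b * x b ≤ v + ε} ≤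
      (1 - Fb S (v + (N * G / k + ε))) ^ I + 2 * ((M : ℝ) + 1) * Real.exp (-G ^ 2 / 4) := by
    have : IsProbabilityMeasure (gm (M + 1)) := by unfold gm; infer_instance
    refine (measureReal_mono hA3 (measure_ne_top _ _)).trans ?_
    refine (measureReal_union_le _ _).trans ?_
    exact add_le_add (le_of_eq ((h7 M).1 n N I τ _ hIN hS)) ((h7 M).2 G hG)
  -- part B
  have hB1 : P.real EB = (Measure.pi fun _ : Fin (M + 1) => μ).real
      {x | ∀ a, ∑ b, UpGen.cS M a b * x b ≤ G} :=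
    UpGen.law_poly h4 P X μ hP hX hind hlaw (UpGen.cS M) fun _ => G
  have hcardB : ((Fintype.card (Fin (M + 1) × Bool) : ℕ) : ℝ) ≤
      2 * I * ((k : ℝ) + 1) ^ N + 2 * n := by
    rw [Fintype.card_prod, Fintype.card_fin, Fintype.card_bool, hnM]
    push_cast
    have e3 : 0 ≤ (I : ℝ) * ((k : ℝ) + 1) ^ N := by positivity
    linarith
  have hB2 := UpGen.transfer_err h1 M (gaussianReal 0 1) μ q β ε
    (2 * I * ((k : ℝ) + 1) ^ N + 2 * n) (UpGen.cS M) (fun _ => G - ε) (fun _ => G)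
    hq2 hq3 hγ hμ (UpGen.cS_le h3 M) hβ hε (fun _ => by ring) hcardB μ (add_comm _ _)
  have hB3 : (1 : ℝ) - 2 * ((M : ℝ) + 1) * Real.exp (-(G - ε) ^ 2 / 4) ≤
      (gm (M + 1)).real {x : Fin (M + 1) → ℝ | ∀ a, ∑ b, UpGen.cS M a b * x b ≤ G - ε} := by
    have : IsProbabilityMeasure (gm (M + 1)) := by unfold gm; infer_instance
    have e1 : {x : Fin (M + 1) → ℝ | ∀ a, ∑ b, UpGen.cS M a b * x b ≤ G - ε}ᶜ ⊆
        {x | ∃ k : ℕ, k ≤ M ∧ G - ε < |gk M (ex x) k|} := by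
      intro x hx
      by_contra hc
      apply hx
      have hc' : ∀ k : ℕ, k ≤ M → |gk M (ex x) k| ≤ G - ε := by
        intro k hk
        by_contra h
        exact hc ⟨k, hk, not_le.1 h⟩
      have h9 := (UpGen.cS_iff h3 M (ex x) (G - ε)).2 hc'
      simp only [UpGen.ex_fin] at h9
      exact h9
    have e2 := measureReal_mono (μ := gm (M + 1)) e1 (measure_ne_top _ _)
    rw [probReal_compl_eq_one_sub (UpGen.meas_poly (UpGen.cS M) fun _ => G - ε)] at e2
    have e3 := (h7 M).2 (G - ε) (by linarith)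
    linarith
  -- assembly
  have hgm : (gm (M + 1)) = Measure.pi fun _ : Fin (M + 1) => gaussianReal 0 1 := rfl
  rw [hgm] at hA4 hB3
  have hexp : Real.exp (-G ^ 2 / 4) ≤ Real.exp (-(G - ε) ^ 2 / 4) := by
    refine Real.exp_le_exp.2 ?_
    have : (G - ε) ^ 2 ≤ G ^ 2 := by
      refine pow_le_pow_left₀ (by linarith) (by linarith) 2
    linarith
  have hexp' : 2 * ((M : ℝ) + 1) * Real.exp (-G ^ 2 / 4) ≤
      2 * ((M : ℝ) + 1) * Real.exp (-(G - ε) ^ 2 / 4) :=
    mul_le_mul_of_nonneg_left hexp (by positivity)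
  calc P.real {ω | lamS n (fun k => X k ω) ≤ Real.sqrt (2 * (M : ℝ) + 1) * (v - G * τ)}
      ≤ P.real (EA ∪ EBᶜ) := measureReal_mono hsub (measure_ne_top _ _)
    _ ≤ P.real EA + P.real EBᶜ := measureReal_union_le _ _
    _ = P.real EA + (1 - P.real EB) := by rw [probReal_compl_eq_one_sub hEBm]
    _ ≤ (1 - Fb S (v + (N * G / k + ε))) ^ I + 4 * (n : ℝ) * Real.exp (-(G - ε) ^ 2 / 4) +
      2 * err M μ q β ε (2 * I * ((k : ℝ) + 1) ^ N + 2 * n) := by
        have e : 4 * (n : ℝ) * Real.exp (-(G - ε) ^ 2 / 4) =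
          2 * (2 * ((M : ℝ) + 1) * Real.exp (-(G - ε) ^ 2 / 4)) := by rw [hnM]; ring
        rw [e, hA1, hB1]
        linarith

end Pool.Agent.Work.MP_3574a2_pr.Gen
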