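import Pool.Agent.Work.MP_3574a2_pr.Gen.Stmts

/-!
# Gumbel limit for random Toeplitz matrices with general entries: the limit
-/

set_option autoImplicit false

namespace Pool.Agent.Work.MP_3574a2_pr.Gen

open MeasureTheory ProbabilityTheory Set Polynomial Filter Topology
open Pool.Agent.Work.MP_3574a2_pr.Dil
open scoped ENNReal NNReal

section

universe u

variable {Ω : Type u} [mΩ : MeasurableSpace Ω] (P : Measure Ω) [hP : IsProbabilityMeasure P]
  (X : ℕ → Ω → ℝ) {C : ℝ} {a : ℕ → ℝ} {μ : Measure ℝ} {q : ℝ}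

include hP in
theorem lamS_limit_gen (hLo : StLoGen.{u}) (hUp : StUpGen.{u}) (hErr : StErr)
    (hMax0 : ClaimMax.{0}) (hWin : ClaimWin) (hNe : ClaimNe) (hCross : ClaimCross)
    (hmeas : ∀ k, Measurable (X k)) (hind : iIndepFun X P)
    (hlaw : ∀ k, P.map (X k) = μ) (hq2 : 2 < q) (hq3 : q ≤ 3) (hμ : Law μ q) (hC1 : 1 ≤ C)
    (hC : ∀ (M1 M2 N : ℕ) (τ G : ℝ) (g : Fin N → ℝ),
      M2 ≤ M1 → M1 ≤ 2 * M2 → 1 ≤ N → N ≤ M2 → 0 ≤ G → (∀ i, |g i| ≤ G) →
      Simp (PP (M1 + 1) (2 * M1 + 1) τ N) →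
      Simp (PP (M2 + 1) (2 * M2 + 1) (τ + C * N ^ 2 / M2) N) ∧
      spp (PP (M1 + 1) (2 * M1 + 1) τ N) g ≤
        spp (PP (M2 + 1) (2 * M2 + 1) (τ + C * N ^ 2 / M2) N) g + G * (C * N ^ 2 / M2))
    (h : RegData C a) (x : ℝ) :
    Tendsto (fun n => P.real {ω | lamS n (fun k => X k ω) ≤ VV C a x n}) atTop
      (𝓝 (Real.exp (-Real.exp (-x)))) := by
  obtain ⟨hsh, hexpG, herr⟩ := hErr
  have hexp0 : Tendsto (fun n : ℕ => (n : ℝ) / NN n * (0 : ℝ)) atTop (𝓝 0) := by simp
  have hexpE : ∀ c : ℝ, Tendsto (fun n : ℕ => (n : ℝ) / NN n *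
      (c * NN n * Real.exp (-GG n ^ 2 / 4))) atTop (𝓝 0) := by
    intro c
    have := exp_tendsto.const_mul c
    rw [mul_zero] at this
    refine this.congr' ?_
    filter_upwards [ev_rr 1] with n hr
    have hN : (NN n : ℝ) ≠ 0 := by rw [NN_real]; positivity
    field_simp
  -- the errors of the comparison
  have herr1 := herr μ q hq2 hq3 (fun n => (n - 1) / NN n) (fun n => n - 1)
    (Eventually.of_forall fun n => (Nat.div_le_self _ _).trans (Nat.sub_le _ _))
    (by filter_upwards [eventually_ge_atTop 1] with n hn; omega)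
  have herr2 := herr μ q hq2 hq3 (fun n => MM n / NN n) MM
    (by
      filter_upwards [ev_basic] with n ⟨b1, b2, b3, b4, b5, b6, b7, b8⟩
      have hW1 : 1 ≤ WW n := by unfold WW; exact Nat.one_le_pow _ _ (by omega)
      have hN : 2 ≤ NN n := by omega
      calc MM n / NN n ≤ MM n / 2 := Nat.div_le_div_left hN (by norm_num)
        _ ≤ n := by omega)
    (by filter_upwards [ev_basic] with n ⟨b1, b2, b3, b4, b5, b6, b7, b8⟩; omega)
  -- the upper sequence
  set u1 : ℕ → ℝ := fun n => a n * (1 + x / (a n / sig (PC C n)) ^ 2) +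
    GG n * (t1 n + ep C n) with hu1
  have hu1' : Tendsto (fun n => (a n / sig (PC C n)) ^ 2 * ((u1 n + sh n) / a n - 1)) atTop
      (𝓝 x) := by
    have := h.level x (fun _ => 1) (fun n => -(GG n * (t1 n + ep C n) + sh n)) (by simp) (by
      have := ((lim_Gt1.add (lim_Gep C)).add hsh).neg
      simp only [add_zero, neg_zero] at this
      refine this.congr fun n => ?_
      ring)
    refine this.congr fun n => ?_
    simp only [hu1]; ring_nf
  obtain ⟨up1, up2, _⟩ := upper_seq h x (fun n => u1 n + sh n) hu1' (fun n => (n - 1) / NN n)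
    (div_tendsto _ sub_one_div) (fun _ => 0) hexp0
  have hup := ((one_sub_pow _ _ _ up2 up1).add (hexpG.const_mul 4)).add (herr1.const_mul 2)
  rw [mul_zero, mul_zero, add_zero, add_zero] at hup
  -- the lower sequence
  set u2 : ℕ → ℝ := fun n => qq n * (a n * (1 + x / (a n / sig (PC C n)) ^ 2)) - dd n with hu2
  have hlev : ∀ e : ℕ → ℝ, Tendsto (fun n => (rr n : ℝ) ^ 20 * e n) atTop (𝓝 0) →
      Tendsto (fun n => (a n / sig (PC C n)) ^ 2 * ((u2 n - sh n - e n) / a n - 1)) atTop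
        (𝓝 x) := by
    intro e he
    have := h.level x qq (fun n => dd n + sh n + e n) lim_qq (by
      have := (lim_dd.add hsh).add he
      rw [add_zero, add_zero] at this
      refine this.congr fun n => ?_
      ring)
    refine this.congr fun n => ?_
    simp only [hu2]; ring_nf
  obtain ⟨lo1, lo2, _⟩ := upper_seq h x (fun n => u2 n - sh n - GG n * ep C n) (hlev _ (lim_Gep C))
    (fun n => MM n / NN n) (div_tendsto _ MM_div)
    (fun n => 2 * NN n * Real.exp (-GG n ^ 2 / 4)) (hexpE 2)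
  have hlo := one_sub_pow _ _ _ lo2 lo1
  obtain ⟨cr1, cr2, _⟩ := upper_seq h x
    (fun n => u2 n - sh n - (GG n * t1 n + GG n * ep C n))
    (hlev _ (by
      have := lim_Gt1.add (lim_Gep C)
      rw [add_zero] at this
      refine this.congr fun n => ?_
      ring))
    (fun n => MM n / NN n) (div_tendsto _ MM_div)
    (fun n => 4 * NN n * Real.exp (-GG n ^ 2 / 4)) (hexpE 4)
  have hcr := cr1.mul lim_cross
  rw [mul_zero] at hcr
  -- `u2` is large
  have hu2pos : ∀ᶠ n in atTop, (rr n : ℝ) ^ 20 / 128 ≤ u2 n - sh n := by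
    have hq1 : ∀ᶠ n in atTop, 3 / 4 ≤ qq n := by
      have h1 := (lim_qq.eventually_const_lt (show (-(1 / 4) : ℝ) < 0 by norm_num))
      filter_upwards [h1, ev_rr 1] with n h2 hr
      have hr' : (1 : ℝ) ≤ (rr n : ℝ) ^ 40 := one_le_pow₀ (by exact_mod_cast hr)
      by_contra hc
      push Not at hc
      nlinarith
    have hd1 : ∀ᶠ n in atTop, dd n + sh n ≤ 1 / 256 := by
      have h0 := lim_dd.add hsh
      rw [add_zero] at h0
      have h1 := (h0.eventually_lt_const (show (0 : ℝ) < 1 / 256 by norm_num))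
      filter_upwards [h1, ev_rr 1] with n h2 hr
      have hr' : (1 : ℝ) ≤ (rr n : ℝ) ^ 20 := one_le_pow₀ (by exact_mod_cast hr)
      by_contra hc
      push Not at hc
      nlinarith
    filter_upwards [hq1, hd1, ev_half h x, ev_rr 1] with n h1 h2 h3 hr
    have hr' : (1 : ℝ) ≤ (rr n : ℝ) ^ 20 := one_le_pow₀ (by exact_mod_cast hr)
    simp only [hu2]
    have h4 : 3 / 4 * ((rr n : ℝ) ^ 20 / 64) ≤
        qq n * (a n * (1 + x / (a n / sig (PC C n)) ^ 2)) := by gcongr
    linarith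
  have hsp := lim_special (fun n => u2 n - sh n) hu2pos
  have hno : Tendsto (fun n : ℕ => 2 * ((MM n : ℝ) + 1) * Real.exp (-(GG n - ee n) ^ 2 / 4)) atTop
      (𝓝 0) := by
    have h1 := hexpG.const_mul 4
    rw [mul_zero] at h1
    refine squeeze_zero' (Eventually.of_forall fun n => by positivity) ?_ h1
    filter_upwards [ev_basic] with n ⟨_, _, _, _, _, _, _, h8⟩
    have h8' : (MM n : ℝ) + 1 ≤ 2 * n := by exact_mod_cast h8
    have : (0 : ℝ) ≤ Real.exp (-(GG n - ee n) ^ 2 / 4) := (Real.exp_pos _).le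
    nlinarith
  have hlow := (((hlo.sub hcr).sub hsp).sub hno).sub herr2
  rw [sub_zero, sub_zero, sub_zero, sub_zero] at hlow
  have hpar : ∀ᶠ n : ℕ in atTop, 1 ≤ km n ∧ 0 < be n ∧ 0 < ee n ∧ ee n ≤ GG n ∧ 0 ≤ sh n := by
    filter_upwards [ev_rr 1] with n hr
    have hr' : (1 : ℝ) ≤ rr n := by exact_mod_cast hr
    have h1 : 0 < ee n := by unfold ee; positivity
    have h2 : ee n ≤ 1 := by
      unfold ee
      rw [div_le_one (by positivity)]
      exact one_le_pow₀ hr'
    have h3 : 1 ≤ GG n := by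
      unfold GG
      have : (1 : ℝ) ≤ (rr n : ℝ) ^ 20 := one_le_pow₀ hr'
      linarith
    refine ⟨?_, ?_, h1, by linarith, ?_⟩
    · unfold km; exact Nat.one_le_pow _ _ (by omega)
    · unfold be; positivity
    · unfold sh; positivity
  refine tendsto_of_tendsto_of_tendsto_of_le_of_le' hlow hup ?_ ?_
  · -- lower bound
    filter_upwards [ev_basic, ev_simp hC1 hNe, ev_hh, ev_tz, t1_bound, hu2pos,
      lo2.eventually_lt_const (show (0 : ℝ) < 1 / 2 by norm_num),
      cr2.eventually_lt_const (show (0 : ℝ) < 1 / 2 by norm_num), hpar]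
      with n ⟨b1, b2, b3, b4, b5, b6, b7, b8⟩ ⟨_, s2, s3⟩ ⟨hh1, _⟩ ⟨tz0, _⟩ ⟨t0, _⟩ hu hp1 hp2
        ⟨pk, pb, pe, pg, ps⟩
    have hG : 0 ≤ GG n := by unfold GG; positivity
    have hK : 0 < kk n := by
      unfold kk
      have : (0 : ℝ) < rr n := by exact_mod_cast (by omega : 0 < rr n)
      positivity
    have hu0 : 0 ≤ u2 n - sh n := le_trans (by positivity) hu
    have hNN : 1 ≤ NN n := by omega
    have hW1 : 1 ≤ WW n := by unfold WW; exact Nat.one_le_pow _ _ (by omega)
    obtain ⟨A, hA, _⟩ := hWin 8 (hh n) (WW n) (MM n) (by norm_num) (by omega)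
      (by have : 8 * (hh n - 1) = HH n := rfl
          omega) hW1
    have hI : 1 ≤ MM n / NN n := (Nat.one_le_div_iff (by omega)).mpr (by omega)
    have key := hLo Ω mΩ P X μ q hP hmeas hind hlaw hq2.le hq3 hμ n
      (HH n) (WW n) (NN n) (MM n / NN n) (MM n) (km n) (tz n) (GG n) (kk n) (u2 n) (be n) (ee n)
      A (by omega) b7 hW1 b4 hI (Nat.div_mul_le_self _ _) hA tz0 hK pk pb pe pg
      (by have : NN n * GG n / km n + ee n = sh n := rfl
          rw [this]; linarith) s2 s3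
    have esh : NN n * GG n / km n + ee n = sh n := rfl
    rw [esh] at key
    have hcomp := Fb_comp hMax0 hC n (by omega) hNN b3 b5 b6 b7 s2 (u2 n - sh n)
    have hcomp2 := Fb_comp hMax0 hC n (by omega) hNN b3 b5 b6 b7 s2 (u2 n - sh n - GG n * t1 n)
    have hcross := hCross (MM n) (n + HH n) (NN n) (4 * WW n + 1) (t1 n) (GG n) (u2 n - sh n)
      (Fb (PC C n) (u2 n - sh n - (GG n * t1 n + GG n * ep C n)) +
        4 * NN n * Real.exp (-GG n ^ 2 / 4)) (by omega) (by omega) (by omega) b4 hG s3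
      (by
        have e : u2 n - sh n - GG n * t1 n - GG n * ep C n =
          u2 n - sh n - (GG n * t1 n + GG n * ep C n) := by ring
        rw [e] at hcomp2
        linarith) hp2
    have e1 : Real.sqrt (2 * (MM n : ℝ) + 1) * (u2 n + kk n * tz n + 2 * GG n *
        (tz n + GG n / kk n)) = VV C a x n := by
      have e2 : tz n + GG n / kk n = t1 n := rfl
      rw [e2]
      have e3 : u2 n + kk n * tz n + 2 * GG n * t1 n =
          qq n * (a n * (1 + x / (a n / sig (PC C n)) ^ 2)) := by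
        simp only [hu2, dd]; ring
      rw [e3]
      unfold VV qq
      have : Real.sqrt (2 * (MM n : ℝ) + 1) ≠ 0 := (Real.sqrt_pos.mpr (by positivity)).ne'
      field_simp
    rw [e1] at key
    refine le_trans ?_ key
    have k1 : (1 - (Fb (PC C n) (u2 n - sh n - GG n * ep C n) +
        2 * NN n * Real.exp (-GG n ^ 2 / 4))) ^ (MM n / NN n) ≤
        (1 - Fb (PP (n + HH n) (2 * MM n + 1) (tz n + GG n / kk n) (NN n)) (u2 n - sh n)) ^
          (MM n / NN n) := by
      have : 0 ≤ 1 - (Fb (PC C n) (u2 n - sh n - GG n * ep C n) +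
        2 * NN n * Real.exp (-GG n ^ 2 / 4)) := by linarith
      have e2 : tz n + GG n / kk n = t1 n := rfl
      rw [e2]
      gcongr
    have k2 : ((MM n / NN n : ℕ) : ℝ) *
        Fb (PP (n + HH n) (2 * MM n + 1) (tz n + GG n / kk n) (4 * WW n + 1)) (u2 n - sh n) ≤
        ((MM n / NN n : ℕ) : ℝ) * (Fb (PC C n) (u2 n - sh n - (GG n * t1 n + GG n * ep C n)) +
          4 * NN n * Real.exp (-GG n ^ 2 / 4)) * (2 / ((NN n / (4 * WW n + 1) : ℕ) : ℝ)) := by
      have e2 : tz n + GG n / kk n = t1 n := rfl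
      rw [e2, mul_assoc]
      gcongr
      refine hcross.trans (le_of_eq ?_)
      ring
    linarith
  · -- upper bound
    filter_upwards [ev_basic, ev_simp hC1 hNe, ev_half h x, hpar]
      with n ⟨b1, b2, b3, b4, b5, b6, b7, b8⟩ ⟨⟨s1, _⟩, _, _⟩ hh0 ⟨pk, pb, pe, pg, ps⟩
    have e0 : u1 n - GG n * (t1 n + ep C n) = a n * (1 + x / (a n / sig (PC C n)) ^ 2) := by
      simp only [hu1]; ring
    have key := hUp Ω mΩ P X μ q hP hmeas hind hlaw hq2.le hq3 hμ n
      (NN n) ((n - 1) / NN n) (km n) (t1 n + ep C n) (GG n) (u1 n) (be n) (ee n) (by omega)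
      (Nat.div_mul_le_self _ _) pk s1 pb pe pg
      (by rw [e0]; exact le_trans (by positivity) hh0)
    have esh : NN n * GG n / km n + ee n = sh n := rfl
    rw [e0, esh] at key
    refine key.trans (le_of_eq ?_)
    have hn1 : (((n - 1 : ℕ) : ℝ) + 1) = n := by
      push_cast [Nat.cast_sub (show 1 ≤ n by omega)]; ring
    simp only [add_zero, hn1, mul_assoc]
    rfl

end

end Pool.Agent.Work.MP_3574a2_pr.Gen
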