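import Pool.Agent.Work.MP_3574a2_pr.Gen.Limit

/-!
# Gumbel limit for random Toeplitz matrices with general entries: the main theorem
-/

set_option autoImplicit false

namespace Pool.Agent.Work.MP_3574a2_pr.Gen

open MeasureTheory ProbabilityTheory Set Polynomial Filter Topology
open Pool.Agent.Work.MP_3574a2_pr.Dil
open scoped ENNReal NNReal

section

universe u

/-- A fixed random variable is small compared with a sequence tending to infinity. -/
lemma fixed_small {Ω : Type u} [MeasurableSpace Ω] (P : Measure Ω) [IsProbabilityMeasure P]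
    (Z : Ω → ℝ) (hZ : Measurable Z) (B : ℕ → ℝ) (hB : Tendsto B atTop atTop) :
    Tendsto (fun n => P.real {ω | B n < |Z ω|}) atTop (𝓝 0) := by
  have h1 : Tendsto (fun j : ℕ => P.real {ω | (j : ℝ) < |Z ω|}) atTop (𝓝 0) := by
    have hanti : Antitone (fun j : ℕ => {ω | (j : ℝ) < |Z ω|}) := by
      intro i j hij ω hω
      simp only [mem_ofPred_eq] at hω ⊢
      have : (i : ℝ) ≤ j := by exact_mod_cast hij
      linarith
    have hm : ∀ j : ℕ, NullMeasurableSet {ω | (j : ℝ) < |Z ω|} P := fun j =>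
      (measurableSet_lt measurable_const hZ.abs).nullMeasurableSet
    have h2 := tendsto_measure_iInter_atTop hm hanti ⟨0, measure_ne_top _ _⟩
    have h3 : (⋂ j : ℕ, {ω | (j : ℝ) < |Z ω|}) = ∅ := by
      ext ω
      simp only [mem_iInter, mem_ofPred_eq, mem_empty_iff_false, iff_false, not_forall, not_lt]
      obtain ⟨j, hj⟩ := exists_nat_ge |Z ω|
      exact ⟨j, hj⟩
    rw [h3, measure_empty] at h2
    have h4 := (ENNReal.tendsto_toReal (ENNReal.zero_ne_top)).comp h2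
    simpa [Function.comp_def, Measure.real] using h4
  rw [Metric.tendsto_nhds]
  intro δ hδ
  obtain ⟨j, hj⟩ := ((h1.eventually_lt_const hδ).and (eventually_ge_atTop 0)).exists
  filter_upwards [hB.eventually_ge_atTop (j : ℝ)] with n hn
  rw [Real.dist_eq, sub_zero, abs_of_nonneg measureReal_nonneg]
  refine lt_of_le_of_lt (measureReal_mono ?_ (measure_ne_top _ _)) hj.1
  intro ω hω
  simp only [mem_ofPred_eq] at hω ⊢
  linarith

/-- The main theorem from the claims. -/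
theorem main_of_gen (hLo : StLoGen.{u}) (hUp : StUpGen.{u}) (hErr : StErr)
    (hMax0 : ClaimMax.{0}) (hSpp : ClaimSpp)
    (hWin : ClaimWin) (hComp : ClaimComp) (hNe : ClaimNe) (hCross : ClaimCross)
    (hReg : ClaimReg) : StMain.{u} := by
  obtain ⟨C, hC1, hC⟩ := hComp
  obtain ⟨a, ha1, ha2⟩ := hReg (1 / 32) (PC C) (by norm_num)
    ((ev_simp hC1 hNe).mono fun n h => h.1)
  have hR : RegData C a := by
    refine ⟨?_, ha1.mono fun n h => h.1, ha1.mono fun n h => h.2, ha2⟩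
    filter_upwards [ev_simp hC1 hNe] with n ⟨⟨h1, h2⟩, _⟩
    exact ⟨h2, (hSpp _ _ h1).2.2.2.2.2.2.2.2⟩
  set A : ℕ → ℝ := fun n => Real.sqrt (2 * ((n - 1 : ℕ) : ℝ) + 1) * a n with hA
  set B0 : ℕ → ℝ := fun n => Real.sqrt (2 * ((n - 1 : ℕ) : ℝ) + 1) * a n /
    (a n / sig (PC C n)) ^ 2 with hB0
  have hV : ∀ x : ℝ, ∀ n, VV C a x n = A n + B0 n * x := by
    intro x n
    simp only [VV, hA, hB0]; ring
  have hBpos : ∀ᶠ n in atTop, 0 < B0 n := by
    filter_upwards [hR.basic] with n ⟨b1, b2, _⟩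
    have : 0 < Real.sqrt (2 * ((n - 1 : ℕ) : ℝ) + 1) := Real.sqrt_pos.mpr (by positivity)
    simp only [hB0]; positivity
  have hBtop : Tendsto B0 atTop atTop := by
    rw [tendsto_atTop]
    intro c
    filter_upwards [hR.basic, ev_pow_le ((128 * (|c| + 1)) ^ 2) 40, eventually_ge_atTop 1,
      ev_rr 1] with n ⟨b1, b2, b3, _, _, b6, b7⟩ hn hn1 hr
    have hr' : (1 : ℝ) ≤ rr n := by exact_mod_cast hr
    have e1 : ((n - 1 : ℕ) : ℝ) = n - 1 := by push_cast [Nat.cast_sub hn1]; ring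
    have hn' : (1 : ℝ) ≤ n := by exact_mod_cast hn1
    have h1 : 128 * (|c| + 1) * (rr n : ℝ) ^ 20 ≤ Real.sqrt (2 * ((n - 1 : ℕ) : ℝ) + 1) := by
      apply Real.le_sqrt_of_sq_le
      rw [e1]
      calc (128 * (|c| + 1) * (rr n : ℝ) ^ 20) ^ 2
          = (128 * (|c| + 1)) ^ 2 * (rr n : ℝ) ^ 40 := by ring
        _ ≤ (n : ℝ) := hn
        _ ≤ 2 * ((n : ℝ) - 1) + 1 := by linarith
    have hs2 : 0 < (a n / sig (PC C n)) ^ 2 := by positivity
    simp only [hB0]
    rw [le_div_iff₀ hs2]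
    have hr20 : (0 : ℝ) < (rr n : ℝ) ^ 20 := by positivity
    calc c * (a n / sig (PC C n)) ^ 2 ≤ (|c| + 1) * (4 * (rr n : ℝ) ^ 40) := by
          have := le_abs_self c
          have h2 : c ≤ |c| + 1 := by linarith
          have h3 : 0 ≤ |c| + 1 := by positivity
          exact mul_le_mul h2 b6 hs2.le h3
      _ = (128 * (|c| + 1) * (rr n : ℝ) ^ 20) * ((rr n : ℝ) ^ 20 / 32) := by ring
      _ ≤ Real.sqrt (2 * ((n - 1 : ℕ) : ℝ) + 1) * a n := by gcongr
  refine ⟨A, fun n => if 0 < B0 n then B0 n else 1, fun n => ?_, ?_⟩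
  · show 0 < (if 0 < B0 n then B0 n else 1)
    split_ifs with h
    · exact h
    · norm_num
  intro Ω mΩ P X μ q hP hmeas hind hlaw hq2 hq3 hμ x
  have hlim := fun y => lamS_limit_gen P X hLo hUp hErr hMax0 hWin hNe hCross hmeas hind hlaw
    hq2 hq3 hμ hC1 hC hR y
  have hX0 : ∀ ε : ℝ, 0 < ε → Tendsto (fun n => P.real {ω | ε * B0 n < |X 0 ω|}) atTop (𝓝 0) :=
    fun ε hε => fixed_small P (X 0) (hmeas 0) (fun n => ε * B0 n) (hBtop.const_mul_atTop hε)
  have hs2 : 0 ≤ Real.sqrt 2 - 1 ∧ Real.sqrt 2 - 1 ≤ 1 := by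
    constructor
    · have := Real.one_le_sqrt.mpr (show (1 : ℝ) ≤ 2 by norm_num)
      linarith
    · have : Real.sqrt 2 ≤ 2 := by
        rw [Real.sqrt_le_left (by norm_num)]; norm_num
      linarith
  have hcontF : Continuous fun y : ℝ => Real.exp (-Real.exp (-y)) := by fun_prop
  rw [Metric.tendsto_nhds]
  intro δ hδ
  obtain ⟨ε, hε, hF⟩ := Metric.continuous_iff.mp hcontF x (δ / 2) (by linarith)
  have d1 : dist (x + ε / 2) x < ε := by
    rw [Real.dist_eq, show x + ε / 2 - x = ε / 2 by ring, abs_of_pos (by linarith)]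
    linarith
  have d2 : dist (x - ε / 2) x < ε := by
    rw [Real.dist_eq, show x - ε / 2 - x = -(ε / 2) by ring, abs_neg, abs_of_pos (by linarith)]
    linarith
  have hF1 := hF (x + ε / 2) d1
  have hF2 := hF (x - ε / 2) d2
  rw [Real.dist_eq] at hF1 hF2
  filter_upwards [hBpos, Metric.tendsto_nhds.mp (hlim (x + ε / 2)) (δ / 4) (by linarith),
    Metric.tendsto_nhds.mp (hlim (x - ε / 2)) (δ / 4) (by linarith),
    (hX0 (ε / 2) (by linarith)).eventually_lt_const (show (0 : ℝ) < δ / 4 by linarith)]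
    with n hb l1 l2 l3
  simp only [if_pos hb]
  rw [Real.dist_eq] at l1 l2 ⊢
  have hup : P.real {ω | (lam1 n (fun k => X k ω) - A n) / B0 n ≤ x} ≤
      P.real {ω | lamS n (fun k => X k ω) ≤ VV C a (x + ε / 2) n} +
        P.real {ω | ε / 2 * B0 n < |X 0 ω|} := by
    refine (measureReal_mono (s₂ := {ω | lamS n (fun k => X k ω) ≤ VV C a (x + ε / 2) n} ∪
        {ω | ε / 2 * B0 n < |X 0 ω|}) ?_ (measure_ne_top _ _)).trans (measureReal_union_le _ _)
    intro ω hω
    by_contra hcon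
    simp only [mem_union, mem_ofPred_eq, not_or, not_le, not_lt] at hcon hω
    obtain ⟨c1, c2⟩ := hcon
    rw [hV] at c1
    rw [div_le_iff₀ hb] at hω
    unfold lamS at c1
    have c3 : (Real.sqrt 2 - 1) * X 0 ω ≤ ε / 2 * B0 n := by
      calc (Real.sqrt 2 - 1) * X 0 ω ≤ (Real.sqrt 2 - 1) * |X 0 ω| := by
            gcongr
            · exact hs2.1
            · exact le_abs_self _
        _ ≤ 1 * |X 0 ω| := by gcongr; exact hs2.2
        _ ≤ _ := by linarith
    nlinarith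
  have hlo : P.real {ω | lamS n (fun k => X k ω) ≤ VV C a (x - ε / 2) n} ≤
      P.real {ω | (lam1 n (fun k => X k ω) - A n) / B0 n ≤ x} +
        P.real {ω | ε / 2 * B0 n < |X 0 ω|} := by
    refine (measureReal_mono (s₂ := {ω | (lam1 n (fun k => X k ω) - A n) / B0 n ≤ x} ∪
        {ω | ε / 2 * B0 n < |X 0 ω|}) ?_ (measure_ne_top _ _)).trans (measureReal_union_le _ _)
    intro ω hω
    by_contra hcon
    simp only [mem_union, mem_ofPred_eq, not_or, not_le, not_lt] at hcon hω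
    obtain ⟨c1, c2⟩ := hcon
    rw [hV] at hω
    rw [lt_div_iff₀ hb] at c1
    unfold lamS at hω
    have c3 : -(ε / 2 * B0 n) ≤ (Real.sqrt 2 - 1) * X 0 ω := by
      have c4 : (Real.sqrt 2 - 1) * |X 0 ω| ≤ ε / 2 * B0 n := by
        calc (Real.sqrt 2 - 1) * |X 0 ω| ≤ 1 * |X 0 ω| := by gcongr; exact hs2.2
          _ ≤ _ := by linarith
      have c5 : -((Real.sqrt 2 - 1) * |X 0 ω|) ≤ (Real.sqrt 2 - 1) * X 0 ω := by
        have := neg_abs_le (X 0 ω)
        nlinarith [hs2.1]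
      linarith
    nlinarith
  rw [abs_lt] at l1 l2 hF1 hF2 ⊢
  constructor <;> linarith [l1.1, l1.2, l2.1, l2.2, hF1.1, hF1.2, hF2.1, hF2.2]

end

end Pool.Agent.Work.MP_3574a2_pr.Gen
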