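import Mathlib
import Pool.Agent.Work.MP_3574a2_pr.Gen.Stmts

set_option autoImplicit false

namespace Pool.Agent.Work.MP_3574a2_pr.Gen

open MeasureTheory ProbabilityTheory Set Polynomial Filter Topology
open Pool.Agent.Work.MP_3574a2_pr.Dil
open scoped ENNReal NNReal

theorem pr_UpDet (hNoise : ClaimNoise) (hQuad : ClaimQuad) (hLam : ClaimLam)
    (hLower : ClaimLower) : StUpDet := by
  intro n N I τ G u x hn hI hS hu hG hle i hi
  obtain ⟨M, hM⟩ : ∃ M, M = n - 1 := ⟨_, rfl⟩
  rw [← hM] at hI hS hG hle ⊢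
  by_contra hcon
  rw [not_le] at hcon
  have hno : Noise M (gk M x) G := noise_of hNoise M _ G (by simpa using hG 0 (Nat.zero_le _))
    (fun k => by
      have := hG (k + 1) (by have := k.2; omega)
      push_cast at this
      exact this)
  have hki : i * N + N ≤ M := by
    have h2 : (i + 1) * N ≤ I * N := Nat.mul_le_mul_right _ hi
    have h3 : (i + 1) * N = i * N + N := by ring
    omega
  have e : (fun l : Fin N => gk M x ((i : ℤ) * N + 1 + (l : ℤ))) =
      fun l : Fin N => gk M x (((i * N : ℕ) : ℤ) + 1 + (l : ℤ)) := by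
    funext l
    congr 1
  rw [e] at hcon
  obtain ⟨w, w1, w2, w3⟩ := hLower M n N (i * N) τ G u _ (by omega) hki hno hS hcon
  have q := hQuad M n x w (by omega) w1
  have l := (hLam n x hn).1 w w1
  have hsq : 0 < Real.sqrt (2 * (M : ℝ) + 1) := Real.sqrt_pos.mpr (by positivity)
  have k1 : Real.sqrt (2 * (M : ℝ) + 1) * (u - G * τ) < lamS n x * nsq w := by
    have : Real.sqrt (2 * (M : ℝ) + 1) * (u - G * τ) <
        Real.sqrt (2 * (M : ℝ) + 1) * XX M (gk M x) w :=
      mul_lt_mul_of_pos_left w3 hsq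
    unfold lamS
    nlinarith
  have k2 : 0 ≤ Real.sqrt (2 * (M : ℝ) + 1) * (u - G * τ) := mul_nonneg hsq.le hu
  have k3 := nsq_nonneg w
  have k4 : 0 < lamS n x := by
    by_contra hc
    push Not at hc
    nlinarith [mul_nonneg (neg_nonneg.mpr hc) k3]
  nlinarith [mul_nonneg k4.le (sub_nonneg.mpr w2)]

end Pool.Agent.Work.MP_3574a2_pr.Gen
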